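import Pool.Agent.L5helper69.SV.Dich
import Pool.Agent.L5helper57.SVNoeth
import Pool.Agent.L5helper82.SVExp
import Pool.Agent.L5helper94.SV.ProdAnn

/-!
# Automorphisms: one order decides all members of the sequences
-/

set_option autoImplicit false

namespace Pool.Agent.L5helper69.SV3

open Pool.Agent.H835R2 Pool.Agent.H835R2.Knot Pool.Agent.H835R2.Flat Pool.Agent.Y466.FT
  Pool.Agent.L5helper69.SV Pool.Agent.L5helper69.SV2 Polynomial

theorem pl_comp {Γ : Type} [Group Γ] {H : Subgroup Γ} {A B : Type} [AddCommGroup A]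
    [AddCommGroup B] (φ : A →+ B) (m : ℕ) : ∀ f : Γ → A, SV2.Pl H m f →
      SV2.Pl H m (fun x => φ (f x)) := by
  induction m with
  | zero =>
    intro f h x
    show φ (f x) = 0
    rw [h x, map_zero]
  | succ m ih =>
    intro f h g hg
    have h1 := ih _ (h g hg)
    simpa only [map_sub] using h1

/-- The values of the invariants along the sequence are exponential polynomials. -/
theorem exists_Q (hdiag : St_Diag) (hdesc : St_Desc) (hcos : St_Cos) {k r : ℕ} (N : ℕ)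
    (Φ : (Fin k → FreeGroup (Fin r)) ≃* (Fin k → FreeGroup (Fin r))) :
    ∃ P : ℂ[X], P.Monic ∧ P.coeff 0 ≠ 0 ∧ ∀ m : ℕ, ∃ Q : ℂ[X], Q.Monic ∧ RootsIn P Q ∧
      ∀ (u₀ : Word) (w : Fin k → Fin r → Braid) (u : Fin k → Word), OnStrands N u₀ w u →
      ∀ v : Word → ℚ, IsInvariant v → DegreeLE m v → ∀ γ,
        Kills Q (fun n => ((Pool.Agent.Y466.FT.ext v (dia u₀ w u Φ.toMonoidHom γ n) : ℚ) : ℂ)) := by
  have hn : (Hk (Fin k → FreeGroup (Fin r)) (Fin k → BN N)).Normal := by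
    unfold Hk
    exact Subgroup.normal_iInf_normal fun h => h.normal_ker
  obtain ⟨P, h1, h2, h3⟩ := hcos (Fin k → FreeGroup (Fin r))
    (Hk (Fin k → FreeGroup (Fin r)) (Fin k → BN N)) Φ (Hk_inv _ _ Φ.toMonoidHom)
    (Hk_inv _ _ Φ.symm.toMonoidHom)
  refine ⟨P, h1, h2, fun m => ?_⟩
  obtain ⟨Q, q1, q2, q3⟩ := ann hdiag hdesc (Fin k → FreeGroup (Fin r))
    (Hk (Fin k → FreeGroup (Fin r)) (Fin k → BN N)) Φ.toMonoidHom (Hk_inv _ _ Φ.toMonoidHom) P h1 h3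
    (m + 1)
  refine ⟨Q, q1, q2, fun u₀ w u hs v hv hm γ => ?_⟩
  exact q3 _ (pl_comp (Rat.castHom ℂ : ℚ →+* ℂ).toAddMonoidHom (m + 1) _ (kn2 hs hv hm)) γ

/-! ### Functions of two variables -/

/-- Hilbert's basis theorem. -/
theorem noeth_gen {X : Type} (R : Subalgebra ℂ (X → ℂ)) (hR : R.FG) (S : ℕ → Set (X → ℂ))
    (hS : ∀ m, ∀ a ∈ S m, a ∈ R) (hmono : ∀ m n, m ≤ n → S m ⊆ S n) :
    ∃ d, ∀ x, (∀ a ∈ S d, a x = 0) → ∀ m, ∀ a ∈ S m, a x = 0 := by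
  have : Algebra.FiniteType ℂ R := (Subalgebra.fg_iff_finiteType _).1 hR
  have hN : IsNoetherianRing R := Algebra.FiniteType.isNoetherianRing ℂ R
  let I : ℕ →o Ideal R :=
    ⟨fun m => Ideal.span {r : R | (r : X → ℂ) ∈ S m},
      fun m n h => Ideal.span_mono (fun r hr => hmono m n h hr)⟩
  obtain ⟨d, hd⟩ := monotone_stabilizes_iff_noetherian.2 hN I
  refine ⟨d, fun n hn m a ha => ?_⟩
  let ev : R →+* ℂ := (Pi.evalRingHom (fun _ : X => ℂ) n).comp R.val.toRingHom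
  have h1 : I d ≤ RingHom.ker ev := by
    refine Ideal.span_le.2 ?_
    intro r hr
    exact hn _ hr
  have h2 : (⟨a, hS m a ha⟩ : R) ∈ I (max d m) :=
    Ideal.subset_span (hmono m _ (le_max_right _ _) ha)
  rw [← hd _ (le_max_left _ _)] at h2
  exact h1 h2

/-- The pull-back of functions. -/
def pull {X : Type} (f : X → ℕ) : (ℕ → ℂ) →ₐ[ℂ] (X → ℂ) where
  toFun a x := a (f x)
  map_one' := rfl
  map_mul' _ _ := rfl
  map_zero' := rfl
  map_add' _ _ := rfl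
  commutes' _ := rfl

/-- The functions of `n` and `n'`. -/
noncomputable def Rng2 (P P' : ℂ[X]) : Subalgebra ℂ (ℕ × ℕ → ℂ) :=
  (Rng P).map (pull Prod.fst) ⊔ (Rng P').map (pull Prod.snd)

theorem rng2_fg (P P' : ℂ[X]) : (Rng2 P P').FG :=
  ((Pool.Agent.L5helper57.SV.rng_fg P).map _).sup ((Pool.Agent.L5helper57.SV.rng_fg P').map _)

theorem one_order (hdiag : St_Diag) (hdesc : St_Desc) (hcos : St_Cos) {k r : ℕ} {N : ℕ}
    (Φ : (Fin k → FreeGroup (Fin r)) ≃* (Fin k → FreeGroup (Fin r)))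
    {k' r' : ℕ} {N' : ℕ} (Φ' : (Fin k' → FreeGroup (Fin r')) ≃* (Fin k' → FreeGroup (Fin r')))
    {u₀ : Word} {w : Fin k → Fin r → Braid} {u : Fin k → Word} (hs : OnStrands N u₀ w u)
    {u₀' : Word} {w' : Fin k' → Fin r' → Braid} {u' : Fin k' → Word} (hs' : OnStrands N' u₀' w' u')
    (γ : Fin k → FreeGroup (Fin r)) (γ' : Fin k' → FreeGroup (Fin r')) :
    ∃ d : ℕ, ∀ n n' m : ℕ, IsKnot (dia u₀ w u Φ.toMonoidHom γ n) →
      IsKnot (dia u₀' w' u' Φ'.toMonoidHom γ' n') →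
      Separated m (dia u₀ w u Φ.toMonoidHom γ n) (dia u₀' w' u' Φ'.toMonoidHom γ' n') →
      Separated d (dia u₀ w u Φ.toMonoidHom γ n) (dia u₀' w' u' Φ'.toMonoidHom γ' n') := by
  obtain ⟨P, h1, h2, h3⟩ := exists_Q hdiag hdesc hcos N Φ
  obtain ⟨P', h1', h2', h3'⟩ := exists_Q hdiag hdesc hcos N' Φ'
  set a : (Word → ℚ) → ℕ × ℕ → ℂ := fun v n =>
    ((Pool.Agent.Y466.FT.ext v (dia u₀ w u Φ.toMonoidHom γ n.1) : ℚ) : ℂ) -
      ((Pool.Agent.Y466.FT.ext v (dia u₀' w' u' Φ'.toMonoidHom γ' n.2) : ℚ) : ℂ) with ha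
  obtain ⟨d, hd⟩ := noeth_gen (Rng2 P P') (rng2_fg P P')
    (fun m => {b | ∃ v : Word → ℚ, IsInvariant v ∧ DegreeLE m v ∧ b = a v}) (by
      rintro m _ ⟨v, hv, hm, rfl⟩
      obtain ⟨Q, q1, q2, q3⟩ := h3 m
      obtain ⟨Q', q1', q2', q3'⟩ := h3' m
      have k1 := Pool.Agent.L5helper82.SVExp.exp P h1 h2 Q q1 q2 _ (q3 u₀ w u hs v hv hm γ)
      have k2 := Pool.Agent.L5helper82.SVExp.exp P' h1' h2' Q' q1' q2' _
        (q3' u₀' w' u' hs' v hv hm γ')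
      have l1 : pull (Prod.fst : ℕ × ℕ → ℕ) _ ∈ Rng2 P P' :=
        (le_sup_left : _ ≤ Rng2 P P') (Subalgebra.mem_map.2 ⟨_, k1, rfl⟩)
      have l2 : pull (Prod.snd : ℕ × ℕ → ℕ) _ ∈ Rng2 P P' :=
        (le_sup_right : _ ≤ Rng2 P P') (Subalgebra.mem_map.2 ⟨_, k2, rfl⟩)
      exact sub_mem l1 l2) (by
      rintro m n hmn _ ⟨v, hv, hm, rfl⟩
      exact ⟨v, hv, DegreeLE.mono hmn hm, rfl⟩)
  refine ⟨d, fun n n' m hk hk' hsep => ?_⟩
  by_contra hcon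
  obtain ⟨v, hv, hm, hne⟩ := (sep_iff hk hk').1 hsep
  have h4 := hd (n, n') (by
    rintro _ ⟨v', hv', hm', rfl⟩
    rw [ha]
    by_contra hne'
    refine hcon ((sep_iff hk hk').2 ⟨v', hv', hm', fun h0 => hne' ?_⟩)
    show ((_ : ℚ) : ℂ) - ((_ : ℚ) : ℂ) = 0
    rw [← Rat.cast_sub, h0, Rat.cast_zero]) m (a v) ⟨v, hv, hm, rfl⟩
  apply hne
  have h5 : (((Pool.Agent.Y466.FT.ext v (dia u₀ w u Φ.toMonoidHom γ n) -
      Pool.Agent.Y466.FT.ext v (dia u₀' w' u' Φ'.toMonoidHom γ' n')) : ℚ) : ℂ) = 0 := by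
    rw [Rat.cast_sub]
    exact h4
  exact_mod_cast h5

end Pool.Agent.L5helper69.SV3
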