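import Pool.Agent.Y466.FT.Fam

/-!
# Vassiliev invariants along iterated substitutions of braids: definitions
-/

set_option autoImplicit false

namespace Pool.Agent.L5helper69.SV

open Pool.Agent.H835R2.Knot Pool.Agent.Y466.FT

/-- The function has degree less than `m`: all `m`-fold differences `f (g x) - f x` vanish. -/
def Pl {Γ : Type} [Group Γ] {A : Type} [AddCommGroup A] : ℕ → (Γ → A) → Prop
  | 0, f => ∀ x, f x = 0
  | m + 1, f => ∀ g : Γ, Pl m (fun x => f (g * x) - f x)

/-- The braid word of an element of the free group: the letters are replaced by the words `w i` and their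
inverses. -/
def bw {r : ℕ} (w : Fin r → Braid) (γ : FreeGroup (Fin r)) : Braid :=
  (γ.toWord.map fun l => if l.2 then w l.1 else inv (w l.1)).flatten

/-- The diagram `u₀ w₁(γ₁) u₁ w₂(γ₂) u₂ ⋯ w_k(γ_k) u_k`. -/
def sub {k r : ℕ} (u₀ : Word) (w : Fin k → Fin r → Braid) (u : Fin k → Word)
    (γ : Fin k → FreeGroup (Fin r)) : Word :=
  u₀ ++ (List.ofFn fun j => draw (bw (w j) (γ j)) ++ u j).flatten

/-- job REC: functions of degree `< m` on a finitely generated group along the orbits of an endomorphism satisfy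
one linear recurrence (Cayley–Hamilton on `ℤ[Γ] / I ^ m`, which is a finitely generated abelian group) -/
def St_Rec : Prop := ∀ (Γ : Type) [Group Γ] [Group.FG Γ] (Φ : Γ →* Γ) (m : ℕ), ∃ χ : Polynomial ℤ, χ.Monic ∧
  ∀ (A : Type) [AddCommGroup A] (f : Γ → A), Pl m f → ∀ (x : Γ) (n : ℕ),
    ∑ i ∈ Finset.range (χ.natDegree + 1), χ.coeff i • f (Φ^[n + i] x) = 0

/-- job SML: Skolem–Mahler–Lech with one period for all solutions of a recurrence -/
def St_SML : Prop := ∀ χ : Polynomial ℤ, χ.Monic → ∃ L n₀ : ℕ, 1 ≤ L ∧ ∀ f : ℕ → ℚ,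
  (∀ n, ∑ i ∈ Finset.range (χ.natDegree + 1), (χ.coeff i : ℚ) * f (n + i) = 0) →
  ∀ c : ℕ, (∀ n, n₀ ≤ n → n % L = c % L → f n = 0) ∨ {n | n % L = c % L ∧ f n = 0}.Finite

/-- KNOT: Vassiliev invariants are functions of finite degree -/
def St_Knot : Prop := ∀ (k r : ℕ) (u₀ : Word) (w : Fin k → Fin r → Braid) (u : Fin k → Word),
  (∀ j i, IsPure (w j i)) → (∀ γ, IsKnot (sub u₀ w u γ)) → ∀ (A : Type) [AddCommGroup A] (m : ℕ) (v : Word → A),
    IsInvariant v → DegreeLE m v → Pl (m + 1) (fun γ => v (sub u₀ w u γ))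

end Pool.Agent.L5helper69.SV
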