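import Pool.Agent.L5helper69.SV.Rec2

/-!
# Automorphisms: one order for all members (statements)
-/

set_option autoImplicit false

namespace Pool.Agent.L5helper69.SV3

open Pool.Agent.L5helper69.SV2 Polynomial

/-- The sequence satisfies the recurrence with characteristic polynomial `Q`. -/
def Kills (Q : ℂ[X]) (a : ℕ → ℂ) : Prop :=
  ∀ n, ∑ i ∈ Finset.range (Q.natDegree + 1), Q.coeff i * a (n + i) = 0

/-- All roots of `Q` are products of roots of `P`. -/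
def RootsIn (P Q : ℂ[X]) : Prop := ∀ z ∈ Q.roots, z ∈ Submonoid.closure {x : ℂ | x ∈ P.roots}

/-- The ring generated by `n` and `z ^ n`, `z` a root of `P`. -/
noncomputable def Rng (P : ℂ[X]) : Subalgebra ℂ (ℕ → ℂ) :=
  Algebra.adjoin ℂ ({fun n : ℕ => (n : ℂ)} ∪ {a : ℕ → ℂ | ∃ z ∈ P.roots, a = fun n => z ^ n})

/-- DIAG: diagonals of multiple sequences (in `MvPolynomial (Fin m) ℂ` modulo the `P(X_j)` the element
`∏ (X_1 ⋯ X_m - z)`, `z` in the products of `m` roots, is in every prime ideal, hence nilpotent) -/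
def St_Diag : Prop := ∀ P : ℂ[X], P.Monic → ∀ m : ℕ, ∃ Q : ℂ[X], Q.Monic ∧ RootsIn P Q ∧
  ∀ b : (Fin m → ℕ) → ℂ,
    (∀ (j : Fin m) (n : Fin m → ℕ),
      ∑ i ∈ Finset.range (P.natDegree + 1), P.coeff i * b (n + Pi.single j i) = 0) →
    ∑ i ∈ Finset.range (Q.natDegree + 1), Q.coeff i * b (fun _ => i) = 0

/-- EXP: solutions of recurrences are exponential polynomials (induction on the roots of `Q`: solve
`a (n + 1) - z * a n = n ^ k * y ^ n`) -/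
def St_Exp : Prop := ∀ P : ℂ[X], P.Monic → P.coeff 0 ≠ 0 → ∀ Q : ℂ[X], Q.Monic → RootsIn P Q →
  ∀ a : ℕ → ℂ, Kills Q a → a ∈ Rng P

/-- NOETH: Hilbert's basis theorem -/
def St_Noeth : Prop := ∀ (P : ℂ[X]) (S : ℕ → Set (ℕ → ℂ)), (∀ m, ∀ a ∈ S m, a ∈ Rng P) →
  (∀ m n, m ≤ n → S m ⊆ S n) → ∃ d, ∀ n, (∀ a ∈ S d, a n = 0) → ∀ m, ∀ a ∈ S m, a n = 0

/-- `P` kills the additive functions on `H` and the `H`-invariant functions on `Γ`, along the orbits of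
`Φ`. -/
def Good {Γ : Type} [Group Γ] (H : Subgroup Γ) (Φ : Γ → Γ) (P : ℂ[X]) : Prop :=
  (∀ a : Γ → ℂ, (∀ g ∈ H, ∀ h ∈ H, a (g * h) = a g + a h) → ∀ g ∈ H, ∀ n : ℕ,
    ∑ i ∈ Finset.range (P.natDegree + 1), P.coeff i * a (Φ^[n + i] g) = 0) ∧
  (∀ a : Γ → ℂ, (∀ g ∈ H, ∀ x, a (g * x) = a x) → ∀ x, ∀ n : ℕ,
    ∑ i ∈ Finset.range (P.natDegree + 1), P.coeff i * a (Φ^[n + i] x) = 0)

/-- DESC: the symbol `Δ_{g_1} ⋯ Δ_{g_m} f (x)` of a function of degree `≤ m` is additive in every `g_j ∈ H`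
and `H`-invariant in `x`; apply DIAG with `m + 1` variables -/
def St_Desc : Prop := St_Diag → ∀ (Γ : Type) [Group Γ] (H : Subgroup Γ) (Φ : Γ →* Γ),
  (∀ g ∈ H, Φ g ∈ H) → ∀ P : ℂ[X], P.Monic → Good H Φ P → ∀ m : ℕ, ∃ Q : ℂ[X], Q.Monic ∧ RootsIn P Q ∧
    ∀ f : Γ → ℂ, SV2.Pl H (m + 1) f →
      SV2.Pl H m (fun x => ∑ i ∈ Finset.range (Q.natDegree + 1), Q.coeff i * f (Φ^[i] x))

/-- COS: for automorphisms there is such a `P` with `P(0) ≠ 0` (use `SV2.rec` for the group `H`, `m = 2`,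
divide by a power of `X`; the automorphism permutes the finitely many cosets, `X ^ N - 1`) -/
def St_Cos : Prop := ∀ (Γ : Type) [Group Γ] [Group.FG Γ] (H : Subgroup Γ) [H.FiniteIndex] [H.Normal]
  (Φ : Γ ≃* Γ), (∀ g ∈ H, Φ g ∈ H) → (∀ g ∈ H, Φ.symm g ∈ H) →
    ∃ P : ℂ[X], P.Monic ∧ P.coeff 0 ≠ 0 ∧ Good H Φ P

/-- ANN: functions of finite degree (induction on `m` with DESC, product of the polynomials) -/
def St_Ann : Prop := St_Diag → St_Desc → ∀ (Γ : Type) [Group Γ] (H : Subgroup Γ) (Φ : Γ →* Γ),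
  (∀ g ∈ H, Φ g ∈ H) → ∀ P : ℂ[X], P.Monic → Good H Φ P → ∀ m : ℕ, ∃ Q : ℂ[X], Q.Monic ∧ RootsIn P Q ∧
    ∀ f : Γ → ℂ, SV2.Pl H m f → ∀ x, Kills Q (fun n => f (Φ^[n] x))

/-- PROD: products and divisors of the polynomials of recurrences -/
def St_Prod : Prop := (∀ (P Q : ℂ[X]) (a : ℕ → ℂ), P.Monic → Q.Monic → Kills P a ∨ Kills Q a → Kills (P * Q) a) ∧
  (∀ (P Q : ℂ[X]) (a : ℕ → ℂ), P.Monic → Q.Monic → Kills P
    (fun n => ∑ i ∈ Finset.range (Q.natDegree + 1), Q.coeff i * a (n + i)) → Kills (P * Q) a) ∧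
  (∀ P P' Q Q' : ℂ[X], P ≠ 0 → P' ≠ 0 → Q ≠ 0 → Q' ≠ 0 → RootsIn P Q → RootsIn P' Q' → RootsIn (P * P') (Q * Q'))

end Pool.Agent.L5helper69.SV3
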