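import Pool.Agent.L5helper69.SV.Defs3

/-!
# Several commuting automorphisms (statements)
-/

set_option autoImplicit false

namespace Pool.Agent.L5helper69.SV3

open Pool.Agent.L5helper69.SV2 Polynomial

/-- The two-sided sequence satisfies the recurrence with characteristic polynomial `Q`. -/
def KillsZ (Q : ℂ[X]) (a : ℤ → ℂ) : Prop :=
  ∀ n : ℤ, ∑ i ∈ Finset.range (Q.natDegree + 1), Q.coeff i * a (n + i) = 0

/-- The recurrence in the direction `j`. -/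
def KillsDir {s : ℕ} (Q : ℂ[X]) (j : Fin s) (b : (Fin s → ℤ) → ℂ) : Prop :=
  ∀ n : Fin s → ℤ, ∑ i ∈ Finset.range (Q.natDegree + 1), Q.coeff i * b (n + Pi.single j (i : ℤ)) = 0

/-- The ring of functions on `ℤ` generated by `n` and `z ^ n`, `z` a root of `P`. -/
noncomputable def RngZ (P : ℂ[X]) : Subalgebra ℂ (ℤ → ℂ) :=
  Algebra.adjoin ℂ ({fun n : ℤ => (n : ℂ)} ∪ {a : ℤ → ℂ | ∃ z ∈ P.roots, a = fun n => z ^ n})

/-- The ring of functions on `ℤ ^ s` generated by `n_j` and `z ^ n_j`, `z` a root of `P j`. -/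
noncomputable def RngM {s : ℕ} (P : Fin s → ℂ[X]) : Subalgebra ℂ ((Fin s → ℤ) → ℂ) :=
  Algebra.adjoin ℂ ({a : (Fin s → ℤ) → ℂ | ∃ j, a = fun n => ((n j : ℤ) : ℂ)} ∪
    {a : (Fin s → ℤ) → ℂ | ∃ j, ∃ z ∈ (P j).roots, a = fun n => z ^ (n j)})

/-- EXPZ: two-sided solutions are exponential polynomials (as EXP; `z ^ n`, `n ∈ ℤ`, `z ≠ 0`) -/
def St_ExpZ : Prop := ∀ P : ℂ[X], P.Monic → P.coeff 0 ≠ 0 → ∀ Q : ℂ[X], Q.Monic → RootsIn P Q →
  ∀ a : ℤ → ℂ, KillsZ Q a → a ∈ RngZ P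

/-- FUND: fundamental solutions of a two-sided recurrence -/
def St_Fund : Prop := ∀ Q : ℂ[X], Q.Monic → Q.coeff 0 ≠ 0 →
  ∃ e : Fin Q.natDegree → ℤ → ℂ, (∀ i, KillsZ Q (e i)) ∧
    ∀ a : ℤ → ℂ, KillsZ Q a → ∀ n, a n = ∑ i : Fin Q.natDegree, e i n * a ((i : ℕ) : ℤ)

/-- MULTI: functions on `ℤ ^ s` with a recurrence in every direction (write
`b n = ∑ i, e i (n j) * b (Function.update n j i)` for one direction after the other) -/
def St_Multi : Prop := St_ExpZ → St_Fund → ∀ (s : ℕ) (P Q : Fin s → ℂ[X]), (∀ j, (P j).Monic) →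
  (∀ j, (P j).coeff 0 ≠ 0) → (∀ j, (Q j).Monic) → (∀ j, RootsIn (P j) (Q j)) →
  ∀ b : (Fin s → ℤ) → ℂ, (∀ j, KillsDir (Q j) j b) → b ∈ RngM P

end Pool.Agent.L5helper69.SV3
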