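import Pool.Agent.L5helper69.SV.Main

/-!
# Substitution sequences: the dichotomy
-/

set_option autoImplicit false

namespace Pool.Agent.L5helper69.SV2

open Pool.Agent.H835R2 Pool.Agent.H835R2.Knot Pool.Agent.H835R2.Flat Pool.Agent.Y466.FT
  Pool.Agent.L5helper69.SV Polynomial

theorem degreeLE_const (m : ℕ) (c : ℚ) : DegreeLE m (fun _ : Word => c) := by
  refine DegreeLE.mono (Nat.zero_le m) ?_
  intro D _ S _ hS
  obtain ⟨x, rfl⟩ := Finset.card_eq_one.1 (by simpa using hS)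
  rw [show ({x} : Finset ℕ).powerset = {∅, {x}} from rfl]
  rw [Finset.sum_pair (by simp)]
  simp

theorem kil_one : Kil (X - 1 : ℤ[X]) (fun _ : ℕ => (1 : ℚ)) := by
  show (aeval (Sh ℚ) (X - 1 : ℤ[X])) _ = 0
  rw [map_sub, aeval_X, map_one, LinearMap.sub_apply]
  funext n
  show (1 : ℚ) - 1 = 0
  norm_num

/-- One period for all solutions. -/
theorem exists_L {Ξ : ℤ[X]} (hΞ : Ξ.Monic) : ∃ L n₀ : ℕ, 1 ≤ L ∧ ∀ f : ℕ → ℚ, Kil Ξ f →
    ∀ c : ℕ, (∀ n, n₀ ≤ n → n % L = c % L → f n = 0) ∨ {n | n % L = c % L ∧ f n = 0}.Finite := by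
  obtain ⟨L, n₀, h1, h2⟩ := Pool.Agent.L5helper85.SV.sml Ξ hΞ
  refine ⟨L, n₀, h1, fun f hf c => h2 f (fun n => ?_) c⟩
  have := (kil_iff Ξ f).1 hf n
  simpa only [zsmul_eq_mul] using this

theorem infinite_class (L n₀ c : ℕ) (hL : 1 ≤ L) : {n | n₀ ≤ n ∧ n % L = c % L}.Infinite := by
  refine Set.infinite_of_injective_forall_mem (f := fun i : ℕ => c + L * (n₀ + i)) ?_ ?_
  · intro i j h
    have h' : L * (n₀ + i) = L * (n₀ + j) := by simpa using h
    have := Nat.eq_of_mul_eq_mul_left hL h'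
    omega
  · intro i
    refine ⟨?_, ?_⟩
    · have : n₀ + i ≤ L * (n₀ + i) := Nat.le_mul_of_pos_left _ hL
      show n₀ ≤ c + L * (n₀ + i)
      omega
    · show (c + L * (n₀ + i)) % L = c % L
      exact Nat.add_mul_mod_self_left _ _ _

section
variable {k r k' r' : ℕ} {u₀ : Word} {w : Fin k → Fin r → Braid} {u : Fin k → Word}
  {Φ : (Fin k → FreeGroup (Fin r)) →* (Fin k → FreeGroup (Fin r))} {γ : Fin k → FreeGroup (Fin r)}
  {u₀' : Word} {w' : Fin k' → Fin r' → Braid} {u' : Fin k' → Word}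
  {Φ' : (Fin k' → FreeGroup (Fin r')) →* (Fin k' → FreeGroup (Fin r'))}
  {γ' : Fin k' → FreeGroup (Fin r')}

theorem sep_iff {m : ℕ} {D E : Word} (hD : IsKnot D) (hE : IsKnot E) : Separated m D E ↔
    ∃ v : Word → ℚ, IsInvariant v ∧ DegreeLE m v ∧ ext v D - ext v E ≠ 0 := by
  unfold Separated Pool.Agent.Y466.FT.ext
  refine exists_congr fun v => and_congr_right fun _ => and_congr_right fun _ => ?_
  rw [if_pos hD, if_pos hE, sub_ne_zero]

/-- The dichotomy, for sequences of diagrams `D`, `D'` all of whose invariants of order at most `m`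
satisfy one recurrence. -/
theorem dichotomy {m L n₀ : ℕ} (hL : 1 ≤ L) {D D' : ℕ → Word} {Q : (ℕ → ℚ) → Prop}
    (hQ : ∀ f : ℕ → ℚ, Q f →
      ∀ c : ℕ, (∀ n, n₀ ≤ n → n % L = c % L → f n = 0) ∨ {n | n % L = c % L ∧ f n = 0}.Finite)
    (h1 : Q (fun n => ext (fun _ => (1 : ℚ)) (D n))) (h1' : Q (fun n => ext (fun _ => (1 : ℚ)) (D' n)))
    (h2 : Q (fun n => 1 - ext (fun _ => (1 : ℚ)) (D n)))
    (h2' : Q (fun n => 1 - ext (fun _ => (1 : ℚ)) (D' n)))
    (h3 : ∀ v : Word → ℚ, IsInvariant v → DegreeLE m v → Q (fun n => ext v (D n) - ext v (D' n)))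
    (c : ℕ) :
    (∀ n, n₀ ≤ n → n % L = c % L → ¬ (IsKnot (D n) ∧ IsKnot (D' n))) ∨
    ((∀ n, n₀ ≤ n → n % L = c % L → IsKnot (D n) ∧ IsKnot (D' n)) ∧
      ((∀ n, n₀ ≤ n → n % L = c % L → ¬ Separated m (D n) (D' n)) ∨
        {n | n % L = c % L ∧ ¬ Separated m (D n) (D' n)}.Finite)) := by
  classical
  have e0 : ∀ D : Word, ext (fun _ => (1 : ℚ)) D = 0 ↔ ¬ IsKnot D := by
    intro D
    unfold Pool.Agent.Y466.FT.ext
    split_ifs with h <;> simp [h]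
  have e1 : ∀ D : Word, 1 - ext (fun _ => (1 : ℚ)) D = 0 ↔ IsKnot D := by
    intro D
    unfold Pool.Agent.Y466.FT.ext
    split_ifs with h <;> simp [h]
  have key : ∀ D : ℕ → Word, Q (fun n => ext (fun _ => (1 : ℚ)) (D n)) →
      Q (fun n => 1 - ext (fun _ => (1 : ℚ)) (D n)) →
      (∀ n, n₀ ≤ n → n % L = c % L → ¬ IsKnot (D n)) ∨
      (∀ n, n₀ ≤ n → n % L = c % L → IsKnot (D n)) := by
    intro D ha hb
    rcases hQ _ ha c with h | h
    · left
      intro n hn hc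
      exact (e0 _).1 (h n hn hc)
    · rcases hQ _ hb c with h' | h'
      · right
        intro n hn hc
        exact (e1 _).1 (h' n hn hc)
      · exfalso
        refine (infinite_class L n₀ c hL) ((h.union h').subset ?_)
        rintro n ⟨_, hc⟩
        by_cases hk : IsKnot (D n)
        · exact Or.inr ⟨hc, (e1 _).2 hk⟩
        · exact Or.inl ⟨hc, (e0 _).2 hk⟩
  rcases key D h1 h2 with ha | ha
  · left
    intro n hn hc hk
    exact ha n hn hc hk.1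
  rcases key D' h1' h2' with hb | hb
  · left
    intro n hn hc hk
    exact hb n hn hc hk.2
  right
  refine ⟨fun n hn hc => ⟨ha n hn hc, hb n hn hc⟩, ?_⟩
  by_cases hall : ∀ v : Word → ℚ, IsInvariant v → DegreeLE m v →
      ∀ n, n₀ ≤ n → n % L = c % L → ext v (D n) - ext v (D' n) = 0
  · left
    intro n hn hc hs
    obtain ⟨v, hv, hm, hne⟩ := (sep_iff (ha n hn hc) (hb n hn hc)).1 hs
    exact hne (hall v hv hm n hn hc)
  · right
    push Not at hall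
    obtain ⟨v, hv, hm, n₁, hn₁, hc₁, hne⟩ := hall
    rcases hQ _ (h3 v hv hm) c with h | h
    · exact absurd (h n₁ hn₁ hc₁) hne
    · refine (h.union (Set.finite_lt_nat n₀)).subset ?_
      rintro n ⟨hc, hs⟩
      by_cases hn : n₀ ≤ n
      · left
        refine ⟨hc, ?_⟩
        by_contra hne'
        exact hs ((sep_iff (ha n hn hc) (hb n hn hc)).2 ⟨v, hv, hm, hne'⟩)
      · right
        exact not_le.1 hn

end

theorem part_C {k r : ℕ} (N : ℕ) (Φ : (Fin k → FreeGroup (Fin r)) →* (Fin k → FreeGroup (Fin r)))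
    {k' r' : ℕ} (N' : ℕ) (Φ' : (Fin k' → FreeGroup (Fin r')) →* (Fin k' → FreeGroup (Fin r')))
    (m : ℕ) : ∃ L n₀ : ℕ, 1 ≤ L ∧ ∀ (u₀ : Word) (w : Fin k → Fin r → Braid) (u : Fin k → Word)
      (u₀' : Word) (w' : Fin k' → Fin r' → Braid) (u' : Fin k' → Word),
      OnStrands N u₀ w u → OnStrands N' u₀' w' u' → ∀ γ γ' (c : ℕ),
    (∀ n, n₀ ≤ n → n % L = c % L →
      ¬ (IsKnot (dia u₀ w u Φ γ n) ∧ IsKnot (dia u₀' w' u' Φ' γ' n))) ∨
    ((∀ n, n₀ ≤ n → n % L = c % L →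
        IsKnot (dia u₀ w u Φ γ n) ∧ IsKnot (dia u₀' w' u' Φ' γ' n)) ∧
      ((∀ n, n₀ ≤ n → n % L = c % L →
          ¬ Separated m (dia u₀ w u Φ γ n) (dia u₀' w' u' Φ' γ' n)) ∨
        {n | n % L = c % L ∧
          ¬ Separated m (dia u₀ w u Φ γ n) (dia u₀' w' u' Φ' γ' n)}.Finite)) := by
  obtain ⟨χ, h1, h2⟩ := exists_chi N Φ m
  obtain ⟨χ', h1', h2'⟩ := exists_chi N' Φ' m
  obtain ⟨L, n₀, hL, hQ⟩ := exists_L (Ξ := χ * (χ' * (X - 1)))
    (h1.mul (h1'.mul (by simpa using monic_X_sub_C (1 : ℤ))))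
  refine ⟨L, n₀, hL, fun u₀ w u u₀' w' u' hs hs' γ γ' c => ?_⟩
  have k1 : ∀ v : Word → ℚ, IsInvariant v → DegreeLE m v →
      Kil (χ * (χ' * (X - 1))) (fun n => ext v (dia u₀ w u Φ γ n)) := fun v hv hm =>
    (h2 u₀ w u hs ℚ v hv hm γ).mul_left _
  have k2 : ∀ v : Word → ℚ, IsInvariant v → DegreeLE m v →
      Kil (χ * (χ' * (X - 1))) (fun n => ext v (dia u₀' w' u' Φ' γ' n)) := fun v hv hm =>
    ((h2' u₀' w' u' hs' ℚ v hv hm γ').mul_left _).mul_right _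
  have k3 : Kil (χ * (χ' * (X - 1))) (fun _ : ℕ => (1 : ℚ)) := (kil_one.mul_right _).mul_right _
  have i1 : IsInvariant (fun _ : Word => (1 : ℚ)) := fun _ _ _ _ => rfl
  exact dichotomy hL hQ (k1 _ i1 (degreeLE_const m 1)) (k2 _ i1 (degreeLE_const m 1))
    (k3.sub (k1 _ i1 (degreeLE_const m 1))) (k3.sub (k2 _ i1 (degreeLE_const m 1)))
    (fun v hv hm => (k1 v hv hm).sub (k2 v hv hm)) c

end Pool.Agent.L5helper69.SV2
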