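import Pool.Agent.L5helper69.SV.Auto
import Pool.Agent.L5helper10.SV.DIAG
import Pool.Agent.L5helper90.SV.Cos
import Pool.Agent.L5helper65.SV.Desc

/-!
# Substitution sequences: automorphisms
-/

set_option autoImplicit false

namespace Pool.Agent.L5helper69.SV3

open Pool.Agent.H835R2 Pool.Agent.H835R2.Knot Pool.Agent.H835R2.Flat Pool.Agent.Y466.FT
  Pool.Agent.L5helper69.SV Pool.Agent.L5helper69.SV2 Polynomial

/-- Eventually periodic sets. -/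
theorem periodic_of_classes {Z : ℕ → Prop} {L : ℕ} (hL : 1 ≤ L)
    (h : ∀ c, ∃ n₀, (∀ n, n₀ ≤ n → n % L = c % L → Z n) ∨ ∀ n, n₀ ≤ n → n % L = c % L → ¬ Z n) :
    ∃ n₁, ∀ n, n₁ ≤ n → (Z (n + L) ↔ Z n) := by
  choose n₀ hn₀ using h
  refine ⟨(Finset.range L).sup n₀, fun n hn => ?_⟩
  have hc : n % L < L := Nat.mod_lt _ hL
  have h1 : n₀ (n % L) ≤ n := (Finset.le_sup (Finset.mem_range.2 hc)).trans hn
  have h2 : (n + L) % L = n % L % L := by rw [Nat.add_mod_right, Nat.mod_mod]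
  have h3 : n % L = n % L % L := (Nat.mod_mod _ _).symm
  rcases hn₀ (n % L) with h | h
  · exact ⟨fun _ => h n h1 h3, fun _ => h (n + L) (by omega) h2⟩
  · exact ⟨fun h' => absurd h' (h (n + L) (by omega) h2), fun h' => absurd h' (h n h1 h3)⟩

theorem part_D {k r : ℕ} {N : ℕ}
    (Φ : (Fin k → FreeGroup (Fin r)) ≃* (Fin k → FreeGroup (Fin r)))
    {k' r' : ℕ} {N' : ℕ} (Φ' : (Fin k' → FreeGroup (Fin r')) ≃* (Fin k' → FreeGroup (Fin r')))
    {u₀ : Word} {w : Fin k → Fin r → Braid} {u : Fin k → Word} (hs : OnStrands N u₀ w u)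
    {u₀' : Word} {w' : Fin k' → Fin r' → Braid} {u' : Fin k' → Word} (hs' : OnStrands N' u₀' w' u')
    (γ : Fin k → FreeGroup (Fin r)) (γ' : Fin k' → FreeGroup (Fin r')) :
    ∃ d : ℕ, (∀ n n' m : ℕ, IsKnot (dia u₀ w u Φ.toMonoidHom γ n) →
      IsKnot (dia u₀' w' u' Φ'.toMonoidHom γ' n') →
      Separated m (dia u₀ w u Φ.toMonoidHom γ n) (dia u₀' w' u' Φ'.toMonoidHom γ' n') →
      Separated d (dia u₀ w u Φ.toMonoidHom γ n) (dia u₀' w' u' Φ'.toMonoidHom γ' n')) ∧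
    ∀ s s' : ℕ, ∃ L n₁ : ℕ, 1 ≤ L ∧ ∀ n, n₁ ≤ n →
      ((IsKnot (dia u₀ w u Φ.toMonoidHom γ (s + (n + L))) ∧
          IsKnot (dia u₀' w' u' Φ'.toMonoidHom γ' (s' + (n + L))) ∧
          ∀ m, ¬ Separated m (dia u₀ w u Φ.toMonoidHom γ (s + (n + L)))
            (dia u₀' w' u' Φ'.toMonoidHom γ' (s' + (n + L)))) ↔
        (IsKnot (dia u₀ w u Φ.toMonoidHom γ (s + n)) ∧
          IsKnot (dia u₀' w' u' Φ'.toMonoidHom γ' (s' + n)) ∧
          ∀ m, ¬ Separated m (dia u₀ w u Φ.toMonoidHom γ (s + n))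
            (dia u₀' w' u' Φ'.toMonoidHom γ' (s' + n)))) := by
  obtain ⟨d, hd⟩ := one_order Pool.Agent.L5helper10.SV.diag Pool.Agent.L5helper65.SV.desc
    Pool.Agent.L5helper90.SV.cos Φ Φ' hs hs' γ γ'
  refine ⟨d, hd, fun s s' => ?_⟩
  have sh : ∀ (n : ℕ), dia u₀ w u Φ.toMonoidHom γ (s + n) =
      dia u₀ w u Φ.toMonoidHom (Φ.toMonoidHom^[s] γ) n := by
    intro n
    unfold dia
    rw [add_comm s n, Function.iterate_add_apply]
  have sh' : ∀ (n : ℕ), dia u₀' w' u' Φ'.toMonoidHom γ' (s' + n) =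
      dia u₀' w' u' Φ'.toMonoidHom (Φ'.toMonoidHom^[s'] γ') n := by
    intro n
    unfold dia
    rw [add_comm s' n, Function.iterate_add_apply]
  obtain ⟨L, n₀, hL, hc⟩ := part_C N Φ.toMonoidHom N' Φ'.toMonoidHom d
  refine ⟨L, ?_⟩
  have key := periodic_of_classes (Z := fun n => IsKnot (dia u₀ w u Φ.toMonoidHom γ (s + n)) ∧
          IsKnot (dia u₀' w' u' Φ'.toMonoidHom γ' (s' + n)) ∧
          ∀ m, ¬ Separated m (dia u₀ w u Φ.toMonoidHom γ (s + n))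
            (dia u₀' w' u' Φ'.toMonoidHom γ' (s' + n))) hL (by
    intro c
    rcases hc u₀ w u u₀' w' u' hs hs' (Φ.toMonoidHom^[s] γ) (Φ'.toMonoidHom^[s'] γ') c with h | h
    · refine ⟨n₀, Or.inr fun n hn hnc hz => ?_⟩
      refine h n hn hnc ?_
      rw [← sh, ← sh']
      exact ⟨hz.1, hz.2.1⟩
    · obtain ⟨hk, h | h⟩ := h
      · refine ⟨n₀, Or.inl fun n hn hnc => ?_⟩
        have h1 := hk n hn hnc
        have h2 := h n hn hnc
        rw [← sh, ← sh'] at h1 h2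
        exact ⟨h1.1, h1.2, fun m hm => h2 (hd _ _ m h1.1 h1.2 hm)⟩
      · obtain ⟨B, hB⟩ := h.bddAbove
        refine ⟨B + 1, Or.inr fun n hn hnc hz => ?_⟩
        have h3 : n ≤ B := hB (by
          refine ⟨hnc, ?_⟩
          rw [← sh, ← sh']
          exact hz.2.2 d)
        omega)
  obtain ⟨n₁, h1⟩ := key
  exact ⟨n₁, hL, h1⟩

end Pool.Agent.L5helper69.SV3
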