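import Pool.Agent.L5helper69.SV.Defs

/-!
# Vassiliev invariants are functions of finite degree on the free group
-/

set_option autoImplicit false

namespace Pool.Agent.L5helper69.SV

open Pool.Agent.H835R2 Pool.Agent.H835R2.Knot Pool.Agent.H835R2.Flat Pool.Agent.Y466.FT

/-- The braid word of a list of letters. -/
def bwl {r : ℕ} (w : Fin r → Braid) (L : List (Fin r × Bool)) : Braid :=
  (L.map fun l => if l.2 then w l.1 else inv (w l.1)).flatten

section con
variable {k : ℕ} (c : Con (Fin k → FreeMonoid (Bool × ℕ)))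

theorem con_update {P : Fin k → FreeMonoid (Bool × ℕ)} {j : Fin k} {x y : FreeMonoid (Bool × ℕ)}
    (h : c (Pi.mulSingle j x) (Pi.mulSingle j y)) :
    c (Function.update P j x) (Function.update P j y) := by
  rw [split_single (Function.update P j x) j, split_single (Function.update P j y) j]
  rw [Function.update_self, Function.update_self, Function.update_idem, Function.update_idem]
  exact c.mul h (c.refl _)

theorem con_pi {p q : Fin k → FreeMonoid (Bool × ℕ)}
    (h : ∀ j, c (Pi.mulSingle j (p j)) (Pi.mulSingle j (q j))) : c p q := by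
  classical
  have key : ∀ s : Finset (Fin k), c p (s.piecewise q p) := by
    intro s
    induction s using Finset.induction_on with
    | empty => rw [Finset.piecewise_empty]; exact c.refl _
    | insert j s hj ih =>
      rw [Finset.piecewise_insert]
      refine c.trans ih ?_
      have e : s.piecewise q p = Function.update (s.piecewise q p) j (p j) := by
        funext i
        by_cases hi : i = j
        · subst hi
          rw [Function.update_self, Finset.piecewise_eq_of_notMem _ _ _ hj]
        · rw [Function.update_of_ne hi]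
      have h1 := con_update c (P := s.piecewise q p) (h j)
      rw [← e] at h1
      exact h1
  have := key Finset.univ
  rwa [Finset.piecewise_univ] at this

end con

section
variable {k r : ℕ} {m : Fin k → ℕ} {c : Con (Fin k → FreeMonoid (Bool × ℕ))}

theorem inv_inv' (w : Braid) : inv (inv w) = w := by
  unfold inv
  rw [List.map_reverse, List.reverse_reverse, List.map_map]
  conv_rhs => rw [← List.map_id w]
  refine List.map_congr_left fun l _ => ?_
  simp

theorem mem_inv {w : Braid} {n : ℕ} (hw : ∀ l ∈ w, l.2 + 1 < n) : ∀ l ∈ inv w, l.2 + 1 < n := by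
  intro l hl
  unfold inv at hl
  rw [List.mem_reverse, List.mem_map] at hl
  obtain ⟨l', hl', rfl⟩ := hl
  exact hw l' hl'

theorem cl_inv' (hR : ∀ r ∈ RS m, c r.1 r.2) {j : Fin k} {w : Braid}
    (hw : ∀ l ∈ w, l.2 + 1 < m j) : cl c j (FreeMonoid.ofList (inv w ++ w)) = 1 := by
  have := cl_inv hR (w := inv w) (j := j) (mem_inv hw)
  rwa [inv_inv'] at this

theorem bwl_append (w : Fin r → Braid) (L L' : List (Fin r × Bool)) :
    bwl w (L ++ L') = bwl w L ++ bwl w L' := by
  unfold bwl
  rw [List.map_append, List.flatten_append]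

theorem bwl_cons (w : Fin r → Braid) (l : Fin r × Bool) (L' : List (Fin r × Bool)) :
    bwl w (l :: L') = (if l.2 then w l.1 else inv (w l.1)) ++ bwl w L' := by
  unfold bwl
  rw [List.map_cons, List.flatten_cons]

theorem cl_red (hR : ∀ r ∈ RS m, c r.1 r.2) {j : Fin k} {w : Fin r → Braid}
    (hw : ∀ i, ∀ l ∈ w i, l.2 + 1 < m j) {L L' : List (Fin r × Bool)} (h : FreeGroup.Red L L') :
    cl c j (FreeMonoid.ofList (bwl w L)) = cl c j (FreeMonoid.ofList (bwl w L')) := by
  induction h with
  | refl => rfl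
  | tail h0 h2 ih =>
    rw [ih]
    cases h2 with
    | not =>
      rename_i A B x b
      have h3 : cl c j (FreeMonoid.ofList ((if (x, b).2 = true then w (x, b).1 else inv (w (x, b).1)) ++
          (if (x, !b).2 = true then w (x, !b).1 else inv (w (x, !b).1)))) = 1 := by
        cases b
        · simp only [Bool.not_false, if_true, Bool.false_eq_true, if_false]
          exact cl_inv' hR (j := j) (hw x)
        · simp only [Bool.not_true, if_true, Bool.false_eq_true, if_false]
          exact cl_inv hR (j := j) (hw x)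
      rw [bwl_append, bwl_cons, bwl_cons, ← List.append_assoc (if (x, b).2 = true then w (x, b).1
        else inv (w (x, b).1)), bwl_append, FreeMonoid.ofList_append, FreeMonoid.ofList_append,
        FreeMonoid.ofList_append (bwl w A) (bwl w B), map_mul, map_mul, h3, one_mul, map_mul]

theorem cl_bw_mul (hR : ∀ r ∈ RS m, c r.1 r.2) {j : Fin k} {w : Fin r → Braid}
    (hw : ∀ i, ∀ l ∈ w i, l.2 + 1 < m j) (g h : FreeGroup (Fin r)) :
    cl c j (FreeMonoid.ofList (bw w (g * h))) =
      cl c j (FreeMonoid.ofList (bw w g) * FreeMonoid.ofList (bw w h)) := by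
  have e1 : bw w (g * h) = bwl w (FreeGroup.reduce (g.toWord ++ h.toWord)) := by
    unfold bw bwl
    rw [FreeGroup.toWord_mul]
  rw [e1, ← cl_red hR hw (FreeGroup.reduce.red (L := g.toWord ++ h.toWord)), bwl_append,
    FreeMonoid.ofList_append]
  rfl

theorem cl_bw_one (hR : ∀ r ∈ RS m, c r.1 r.2) (hE : ∀ e ∈ ES m, c e.1 e.2) {j : Fin k}
    {w : Fin r → Braid} (hw : ∀ i, ∀ l ∈ w i, l.2 + 1 < m j) (hp : ∀ i, IsPure (w i))
    (L : List (Fin r × Bool)) : cl c j (FreeMonoid.ofList (bwl w L)) = 1 := by
  induction L with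
  | nil => exact map_one _
  | cons l L ih =>
    rw [bwl_cons, FreeMonoid.ofList_append, map_mul, ih, mul_one]
    have h1 := cl_pure hR hE (hw l.1) (hp l.1)
    split_ifs
    · exact h1
    · have h2 := cl_inv hR (j := j) (hw l.1)
      rw [FreeMonoid.ofList_append, map_mul, h1, one_mul] at h2
      exact h2

/-- The braid words at all places. -/
def el (w : Fin k → Fin r → Braid) (γ : Fin k → FreeGroup (Fin r)) :
    Fin k → FreeMonoid (Bool × ℕ) := fun j => FreeMonoid.ofList (bw (w j) (γ j))

theorem el_mul (hR : ∀ r ∈ RS m, c r.1 r.2) {w : Fin k → Fin r → Braid}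
    (hw : ∀ j i, ∀ l ∈ w j i, l.2 + 1 < m j) (γ δ : Fin k → FreeGroup (Fin r)) :
    c (el w (γ * δ)) (el w γ * el w δ) :=
  con_pi c fun j => cl_eq.1 (cl_bw_mul hR (hw j) (γ j) (δ j))

theorem el_pu {w : Fin k → Fin r → Braid} (hw : ∀ j i, ∀ l ∈ w j i, l.2 + 1 < m j)
    (hp : ∀ j i, IsPure (w j i)) (γ : Fin k → FreeGroup (Fin r)) :
    Pu (RS m) (ES m) (el w γ) := by
  intro c hR hE
  refine con_pi c fun j => ?_
  have h1 := cl_bw_one hR hE (hw j) (hp j) (γ j).toWord
  rw [← map_one (cl c j), cl_eq] at h1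
  exact h1

theorem pl_of_dg {A : Type} [AddCommGroup A] {w : Fin k → Fin r → Braid}
    (hw : ∀ j i, ∀ l ∈ w j i, l.2 + 1 < m j) (hp : ∀ j i, IsPure (w j i)) (n : ℕ) :
    ∀ φ : (Fin k → FreeMonoid (Bool × ℕ)) → A, Dg (ES m) n φ → Iv (RS m) φ →
      Pl n (fun γ => φ (el w γ)) := by
  induction n with
  | zero => intro φ hd _ γ; exact hd _
  | succ n ih =>
    intro φ hd hi g
    have h1 := ih _ (hd.tr hi (el_pu hw hp g)) (hi.tr _)
    have e : (fun x => φ (el w (g * x)) - φ (el w x)) = fun x => Tr (el w g) φ (el w x) := by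
      funext x
      have h2 := el_mul (c := cphi φ) (fun r hr => hi r hr) hw g x 1 1
      simp only [one_mul, mul_one] at h2
      show φ _ - φ _ = φ _ - φ _
      rw [h2]
    rw [e]
    exact h1

end

section
variable {k r : ℕ} {u₀ : Word} {w : Fin k → Fin r → Braid} {u : Fin k → Word}

theorem sub_eq (γ : Fin k → FreeGroup (Fin r)) : sub u₀ w u γ = plug u₀ u piece (el w γ) := rfl

theorem letters' {j : Fin k} {i : Fin r}
    (h : IsKnot (sub u₀ w u (Pi.mulSingle j (FreeGroup.of i)))) :
    ∀ l ∈ w j i, l.2 + 1 < wd u₀ u j := by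
  set γ : Fin k → FreeGroup (Fin r) := Pi.mulSingle j (FreeGroup.of i) with hγ
  rw [sub_eq, split_single (el w γ) j] at h
  obtain ⟨y, hy⟩ := plug_single u₀ u piece 1 (Function.update (el w γ) j 1) j
  have h1 := hy (el w γ j)
  rw [one_mul] at h1
  rw [h1] at h
  have h2 := h.1.1
  rw [fits_append, fits_append] at h2
  have h3 := h2.1.2
  have e : (el w γ j).toList.map piece = draw (w j i) := by
    show draw (bw (w j) (γ j)) = _
    have : bw (w j) (γ j) = w j i := by
      rw [hγ, Pi.mulSingle_eq_same]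
      unfold bw
      rw [FreeGroup.toWord_of]
      simp
    rw [this]
  rw [e] at h3
  have h4 := of_fits_draw h3
  intro l hl
  refine lt_of_lt_of_eq (h4 l hl) ?_
  rw [run_n]
  exact wdt_above u₀ u _ j _

end

theorem kn : St_Knot := by
  intro k r u₀ w u hp hk A _ m v hv hm
  have hw : ∀ j i, ∀ l ∈ w j i, l.2 + 1 < wd u₀ u j := fun j i => letters' (hk _)
  have h1 := pl_of_dg hw hp (m + 1) _ (dg_phi u₀ u hm) (iv_phi u₀ u hv)
  have e : (fun γ => v (sub u₀ w u γ)) = fun γ => phi u₀ u v (el w γ) := by
    funext γ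
    exact (if_pos (hk γ)).symm
  rw [e]
  exact h1

end Pool.Agent.L5helper69.SV
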