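import Mathlib

/-!
# Functions of finite degree along the orbits of an endomorphism
-/

set_option autoImplicit false

namespace Pool.Agent.L5helper69.SV2

open Finsupp

/-- The function has degree less than `m` along the subgroup `H`: all `m`-fold differences
`f (g x) - f x`, `g ∈ H`, vanish. -/
def Pl {Γ : Type} [Group Γ] (H : Subgroup Γ) {A : Type} [AddCommGroup A] : ℕ → (Γ → A) → Prop
  | 0, f => ∀ x, f x = 0
  | m + 1, f => ∀ g ∈ H, Pl H m (fun x => f (g * x) - f x)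

section
variable {Γ : Type} [Group Γ]

/-- Left translation. -/
noncomputable def La (g : Γ) : (Γ →₀ ℤ) →ₗ[ℤ] (Γ →₀ ℤ) := lmapDomain ℤ ℤ (g * ·)

/-- The operator `g - 1`. -/
noncomputable def Da (g : Γ) : (Γ →₀ ℤ) →ₗ[ℤ] (Γ →₀ ℤ) := La g - LinearMap.id

theorem La_mul (g h : Γ) (y : Γ →₀ ℤ) : La (g * h) y = La g (La h y) := by
  have : La (g * h) = La g ∘ₗ La h := by
    ext x
    simp [La, mul_assoc]
  rw [this]; rfl

theorem La_one (y : Γ →₀ ℤ) : La (1 : Γ) y = y := by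
  have : La (1 : Γ) = LinearMap.id := by
    ext x
    simp [La]
  rw [this]; rfl

theorem Da_apply (g : Γ) (y : Γ →₀ ℤ) : Da g y = La g y - y := rfl

theorem Da_mul (g h : Γ) (y : Γ →₀ ℤ) : Da (g * h) y = Da g (Da h y) + Da g y + Da h y := by
  simp only [Da_apply, La_mul, map_sub]
  abel

theorem Da_one (y : Γ →₀ ℤ) : Da (1 : Γ) y = 0 := by
  rw [Da_apply, La_one, sub_self]

theorem Da_inv (g : Γ) (y : Γ →₀ ℤ) : Da g⁻¹ y = - Da g y - Da g⁻¹ (Da g y) := by
  have := Da_mul g⁻¹ g y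
  rw [inv_mul_cancel, Da_one] at this
  have h2 : Da g⁻¹ y = -(Da g⁻¹ (Da g y) + Da g y) := by
    rw [eq_neg_iff_add_eq_zero, this]
    abel
  rw [h2]; abel

/-- The right ideals generated by the powers of the augmentation ideal of `H`. -/
noncomputable def Na (H : Subgroup Γ) : ℕ → Submodule ℤ (Γ →₀ ℤ)
  | 0 => ⊤
  | m + 1 => ⨆ g : H, (Na H m).map (Da (g : Γ))

variable {H : Subgroup Γ}

theorem Da_mem {m : ℕ} {g : Γ} (hg : g ∈ H) {y : Γ →₀ ℤ} (hy : y ∈ Na H m) :
    Da g y ∈ Na H (m + 1) :=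
  Submodule.mem_iSup_of_mem (⟨g, hg⟩ : H) (Submodule.mem_map_of_mem hy)

theorem Na_ker {A : Type} [AddCommGroup A] (m : ℕ) : ∀ f : Γ → A, Pl H m f →
    Na H m ≤ LinearMap.ker (linearCombination ℤ f) := by
  induction m with
  | zero =>
    intro f hf y _
    have : f = 0 := funext hf
    rw [this]
    simp [LinearMap.mem_ker, linearCombination_apply]
  | succ m ih =>
    intro f hf
    refine iSup_le fun g => ?_
    rintro _ ⟨y, hy, rfl⟩
    have h1 := ih _ (hf g g.2) hy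
    have e : linearCombination ℤ f ∘ₗ Da (g : Γ) =
        linearCombination ℤ (fun x => f (g * x) - f x) := by
      refine Finsupp.lhom_ext' fun x => LinearMap.ext_ring ?_
      show linearCombination ℤ f (lmapDomain ℤ ℤ ((g : Γ) * ·) (single x 1) - single x 1) =
        linearCombination ℤ (fun x => f (g * x) - f x) (single x 1)
      rw [map_sub, lmapDomain_apply, mapDomain_single]
      simp only [linearCombination_single, one_smul]
    rw [LinearMap.mem_ker] at h1 ⊢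
    rw [← e] at h1
    exact h1

variable (H) in
/-- Generators. -/
noncomputable def Ga (S : Set Γ) : ℕ → Submodule ℤ (Γ →₀ ℤ)
  | 0 => Submodule.span ℤ (Set.range fun q : Γ ⧸ H => single ((q.out)⁻¹) 1)
  | m + 1 => ⨆ s : S, (Ga S m).map (Da (s : Γ))

theorem Ga_fg [H.FiniteIndex] {S : Set Γ} (hS : S.Finite) (m : ℕ) : (Ga H S m).FG := by
  have := hS.to_subtype
  induction m with
  | zero => exact Submodule.fg_span (Set.finite_range _)
  | succ m ih =>
    exact Submodule.fg_iSup _ fun s => ih.map _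

theorem Na_le {S : Set Γ} (hS : Subgroup.closure S = H) (m : ℕ) :
    Na H m ≤ Ga H S m ⊔ Na H (m + 1) := by
  induction m with
  | zero =>
    intro y _
    induction y using Finsupp.induction_linear with
    | zero => exact zero_mem _
    | add a b ha hb => exact add_mem (ha trivial) (hb trivial)
    | single x z =>
      obtain ⟨h, hh⟩ := QuotientGroup.mk_out_eq_mul H x⁻¹
      set t := (((x⁻¹ : Γ) : Γ ⧸ H).out)⁻¹ with ht
      have hx : x = (h : Γ) * t := by
        rw [ht, hh]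
        simp
      have e : (single x z : Γ →₀ ℤ) = z • single t 1 + Da (h : Γ) (z • single t 1) := by
        rw [hx]
        simp [Da, La]
      rw [e]
      refine add_mem (Submodule.mem_sup_left ?_) (Submodule.mem_sup_right ?_)
      · exact Submodule.smul_mem _ _ (Submodule.subset_span ⟨((x⁻¹ : Γ) : Γ ⧸ H), rfl⟩)
      · exact Da_mem h.2 (m := 0) trivial
  | succ m ih =>
    refine iSup_le fun g => ?_
    obtain ⟨g, hg'⟩ := g
    have hSH : S ⊆ H := by rw [← hS]; exact Subgroup.subset_closure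
    have hg : g ∈ Subgroup.closure S := by rw [hS]; exact hg'
    rintro _ ⟨y, hy, rfl⟩
    show Da g y ∈ _
    clear hg'
    induction hg using Subgroup.closure_induction with
    | mem s hs =>
      obtain ⟨a, ha, b, hb, hab⟩ := Submodule.mem_sup.1 (ih hy)
      rw [← hab, map_add]
      refine add_mem (Submodule.mem_sup_left ?_) (Submodule.mem_sup_right ?_)
      · exact Submodule.mem_iSup_of_mem (⟨s, hs⟩ : S) (Submodule.mem_map_of_mem ha)
      · exact Da_mem (hSH hs) hb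
    | one => rw [Da_one]; exact zero_mem _
    | mul g h hg0 hh0 hg hh =>
      rw [hS] at hg0 hh0
      rw [Da_mul]
      refine add_mem (add_mem (Submodule.mem_sup_right ?_) hg) hh
      exact Da_mem hg0 (Da_mem hh0 hy)
    | inv g hg0 hg =>
      rw [hS] at hg0
      rw [Da_inv]
      refine sub_mem (neg_mem hg) (Submodule.mem_sup_right ?_)
      exact Da_mem (inv_mem hg0) (Da_mem hg0 hy)

theorem exists_fg [Group.FG Γ] [H.FiniteIndex] (m : ℕ) :
    ∃ M : Submodule ℤ (Γ →₀ ℤ), M.FG ∧ M ⊔ Na H m = ⊤ := by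
  have h0 : Group.FG H := Subgroup.fg_of_index_ne_zero H
  obtain ⟨S, hS⟩ := (Group.fg_iff_subgroup_fg H).1 h0
  induction m with
  | zero => exact ⟨⊥, Submodule.fg_bot, by rw [bot_sup_eq]; rfl⟩
  | succ m ih =>
    obtain ⟨M, h1, h2⟩ := ih
    refine ⟨M ⊔ Ga H (S : Set Γ) m, h1.sup (Ga_fg S.finite_toSet m), ?_⟩
    rw [eq_top_iff, ← h2, sup_assoc]
    exact sup_le_sup_left (Na_le hS m) _

theorem finite_quot [Group.FG Γ] [H.FiniteIndex] (m : ℕ) :
    Module.Finite ℤ ((Γ →₀ ℤ) ⧸ Na H m) := by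
  obtain ⟨M, h1, h2⟩ := exists_fg (H := H) m
  refine ⟨?_⟩
  have : (⊤ : Submodule ℤ ((Γ →₀ ℤ) ⧸ Na H m)) = M.map (Na H m).mkQ := by
    rw [eq_comm, eq_top_iff]
    rintro x -
    obtain ⟨y, rfl⟩ := (Na H m).mkQ_surjective x
    have hy : y ∈ M ⊔ Na H m := by rw [h2]; trivial
    obtain ⟨a, ha, b, hb, rfl⟩ := Submodule.mem_sup.1 hy
    refine ⟨a, ha, ?_⟩
    rw [map_add, (Submodule.Quotient.mk_eq_zero _).2 hb |> fun h => (show (Na H m).mkQ b = 0 from h),
      add_zero]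
  rw [this]
  exact h1.map _

/-- The endomorphism of the group ring. -/
noncomputable def Ta (Φ : Γ →* Γ) : (Γ →₀ ℤ) →ₗ[ℤ] (Γ →₀ ℤ) := lmapDomain ℤ ℤ Φ

theorem Ta_Da (Φ : Γ →* Γ) (g : Γ) (y : Γ →₀ ℤ) : Ta Φ (Da g y) = Da (Φ g) (Ta Φ y) := by
  have : Ta Φ ∘ₗ Da g = Da (Φ g) ∘ₗ Ta Φ := by
    refine Finsupp.lhom_ext' fun x => LinearMap.ext_ring ?_
    show lmapDomain ℤ ℤ Φ (lmapDomain ℤ ℤ (g * ·) (single x 1) - single x 1) =
      lmapDomain ℤ ℤ (Φ g * ·) (lmapDomain ℤ ℤ Φ (single x 1)) - lmapDomain ℤ ℤ Φ (single x 1)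
    rw [map_sub]
    simp only [lmapDomain_apply, mapDomain_single, map_mul]
  exact LinearMap.congr_fun this y

theorem Ta_Na {Φ : Γ →* Γ} (hΦ : ∀ g ∈ H, Φ g ∈ H) (m : ℕ) : Na H m ≤ (Na H m).comap (Ta Φ) := by
  induction m with
  | zero => exact fun _ _ => trivial
  | succ m ih =>
    refine iSup_le fun g => ?_
    rintro _ ⟨y, hy, rfl⟩
    rw [Submodule.mem_comap, Ta_Da]
    exact Da_mem (hΦ _ g.2) (ih hy)

/-- **Cayley–Hamilton** for functions of finite degree. -/
theorem rec [Group.FG Γ] [H.FiniteIndex] {Φ : Γ →* Γ} (hΦ : ∀ g ∈ H, Φ g ∈ H) (m : ℕ) :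
    ∃ χ : Polynomial ℤ, χ.Monic ∧
      ∀ (A : Type) [AddCommGroup A] (f : Γ → A), Pl H m f → ∀ (x : Γ) (n : ℕ),
        ∑ i ∈ Finset.range (χ.natDegree + 1), χ.coeff i • f (Φ^[n + i] x) = 0 := by
  have := finite_quot (H := H) m
  set T : Module.End ℤ ((Γ →₀ ℤ) ⧸ Na H m) := (Na H m).mapQ (Na H m) (Ta Φ) (Ta_Na hΦ m) with hT
  obtain ⟨χ, h1, h2⟩ := LinearMap.exists_monic_and_aeval_eq_zero ℤ T
  refine ⟨χ, h1, fun A _ f hf x n => ?_⟩
  set F : ((Γ →₀ ℤ) ⧸ Na H m) →ₗ[ℤ] A := (Na H m).liftQ (linearCombination ℤ f) (Na_ker m f hf)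
    with hF
  have h3 : ∀ j, (T ^ j) ((Na H m).mkQ (single x 1)) = (Na H m).mkQ (single (Φ^[j] x) 1) := by
    intro j
    induction j with
    | zero => rfl
    | succ j ih =>
      rw [pow_succ', Module.End.mul_apply, ih, hT, Function.iterate_succ_apply']
      show (Na H m).mkQ (Ta Φ (single (Φ^[j] x) 1)) = _
      simp [Ta]
  have h4 : ∀ j, F ((T ^ j) ((Na H m).mkQ (single x 1))) = f (Φ^[j] x) := by
    intro j
    rw [h3]
    show linearCombination ℤ f (single (Φ^[j] x) 1) = _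
    simp
  have h5 : F (((Polynomial.aeval T) χ) ((T ^ n) ((Na H m).mkQ (single x 1)))) = 0 := by
    rw [h2, LinearMap.zero_apply, map_zero]
  rw [Polynomial.aeval_eq_sum_range, LinearMap.sum_apply, map_sum] at h5
  rw [← h5]
  refine Finset.sum_congr rfl fun i _ => ?_
  rw [LinearMap.smul_apply, map_smul, ← Module.End.mul_apply, ← pow_add, add_comm i n, h4]

end

/-! ### Fully invariant subgroups of finite index -/

section
variable (Γ : Type) [Group Γ] (P : Type) [Group P]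

/-- The intersection of the kernels of all homomorphisms to `P`. -/
def Hk : Subgroup Γ := ⨅ h : Γ →* P, h.ker

theorem finite_hom [Group.FG Γ] [Finite P] : Finite (Γ →* P) := by
  obtain ⟨S, hS⟩ := Group.FG.out (G := Γ)
  refine Finite.of_injective (fun (h : Γ →* P) (s : S) => h s) fun h h' e => ?_
  refine MonoidHom.eq_of_eqOn_dense hS fun s hs => ?_
  exact congrFun e ⟨s, hs⟩

instance [Group.FG Γ] [Finite P] : (Hk Γ P).FiniteIndex := by
  have := finite_hom Γ P
  unfold Hk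
  exact Subgroup.finiteIndex_iInf fun h => Subgroup.finiteIndex_ker h

theorem Hk_inv (Φ : Γ →* Γ) : ∀ g ∈ Hk Γ P, Φ g ∈ Hk Γ P := by
  intro g hg
  rw [Hk, Subgroup.mem_iInf] at hg ⊢
  intro h
  exact hg (h.comp Φ)

end

end Pool.Agent.L5helper69.SV2
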