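import Pool.Agent.L5helper69.SV.Kn
import Pool.Agent.L5helper69.SV.Rec2

/-!
# Arbitrary braid words
-/

set_option autoImplicit false

namespace Pool.Agent.L5helper69.SV2

open Pool.Agent.H835R2 Pool.Agent.H835R2.Knot Pool.Agent.H835R2.Flat Pool.Agent.Y466.FT
  Pool.Agent.L5helper69.SV

/-- The permutations of `ℕ` which fix all numbers `≥ N`. -/
def BN (N : ℕ) : Subgroup (Equiv.Perm ℕ) where
  carrier := {σ | ∀ x, N ≤ x → σ x = x}
  mul_mem' := by
    intro a b ha hb x hx
    show a (b x) = x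
    rw [hb x hx, ha x hx]
  one_mem' := fun _ _ => rfl
  inv_mem' := by
    intro a ha x hx
    show a⁻¹ x = x
    rw [Equiv.Perm.inv_eq_iff_eq]
    exact (ha x hx).symm

theorem BN_lt {N : ℕ} (σ : BN N) {x : ℕ} (hx : x < N) : (σ : Equiv.Perm ℕ) x < N := by
  by_contra h
  have h1 := σ.2 _ (not_lt.1 h)
  have h2 := (σ : Equiv.Perm ℕ).injective h1
  rw [h2] at h
  exact h hx

instance (N : ℕ) : Finite (BN N) := by
  refine Finite.of_injective
    (fun (σ : BN N) (x : Fin N) => (⟨(σ : Equiv.Perm ℕ) x, BN_lt σ x.2⟩ : Fin N)) ?_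
  intro σ τ h
  refine Subtype.ext (Equiv.ext fun x => ?_)
  rcases lt_or_ge x N with hx | hx
  · have := congrFun h ⟨x, hx⟩
    exact congrArg Fin.val this
  · rw [σ.2 x hx, τ.2 x hx]

theorem perm_append (v w : Braid) : perm (v ++ w) = perm v * perm w := by
  unfold perm
  rw [List.map_append, List.prod_append]

theorem perm_inv (w : Braid) : perm (inv w) = (perm w)⁻¹ := by
  unfold perm inv
  rw [List.prod_inv_reverse, List.map_reverse, List.map_map, List.map_map]
  congr 2

theorem perm_mem {w : Braid} {N : ℕ} (hw : ∀ l ∈ w, l.2 + 1 < N) : perm w ∈ BN N := by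
  induction w with
  | nil => exact one_mem _
  | cons l w ih =>
    have e : perm (l :: w) = Equiv.swap l.2 (l.2 + 1) * perm w := by
      unfold perm
      rw [List.map_cons, List.prod_cons]
    rw [e]
    refine mul_mem ?_ (ih fun x hx => hw x (List.mem_cons_of_mem _ hx))
    intro x hx
    have := hw l List.mem_cons_self
    exact Equiv.swap_apply_of_ne_of_ne (by omega) (by omega)

section
variable {k r N : ℕ} {w : Fin k → Fin r → Braid}

/-- The permutations of the inserted braids. -/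
def rho (hw : ∀ j i, ∀ l ∈ w j i, l.2 + 1 < N) :
    (Fin k → FreeGroup (Fin r)) →* (Fin k → BN N) :=
  MonoidHom.piMap fun j => FreeGroup.lift fun i => ⟨perm (w j i), perm_mem (hw j i)⟩

theorem perm_bwl {w : Fin r → Braid} (hw : ∀ i, ∀ l ∈ w i, l.2 + 1 < N) (L : List (Fin r × Bool)) :
    perm (bwl w L) = (FreeGroup.lift (fun i => (⟨perm (w i), perm_mem (hw i)⟩ : BN N))
      (FreeGroup.mk L) : BN N) := by
  induction L with
  | nil => rfl
  | cons l L ih =>
    rw [bwl_cons, perm_append, ih]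
    obtain ⟨i, b⟩ := l
    rw [FreeGroup.lift_mk, FreeGroup.lift_mk, List.map_cons, List.prod_cons, Subgroup.coe_mul]
    congr 1
    cases b
    · exact perm_inv _
    · rfl

theorem pure_of_mem (hw : ∀ j i, ∀ l ∈ w j i, l.2 + 1 < N) {γ : Fin k → FreeGroup (Fin r)}
    (hγ : γ ∈ Hk (Fin k → FreeGroup (Fin r)) (Fin k → BN N)) (j : Fin k) :
    IsPure (bw (w j) (γ j)) := by
  rw [Hk, Subgroup.mem_iInf] at hγ
  have h1 := hγ (rho hw)
  rw [MonoidHom.mem_ker] at h1
  have h2 := congrArg Subtype.val (congrFun h1 j)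
  show perm (bwl (w j) (γ j).toWord) = 1
  rw [perm_bwl (hw j), FreeGroup.mk_toWord]
  exact h2

theorem mem_bwl {w : Fin r → Braid} {n : ℕ} (hw : ∀ i, ∀ l ∈ w i, l.2 + 1 < n)
    (L : List (Fin r × Bool)) : ∀ l ∈ bwl w L, l.2 + 1 < n := by
  induction L with
  | nil => intro l hl; exact absurd hl (by simp [bwl])
  | cons x L ih =>
    intro l hl
    rw [bwl_cons] at hl
    rcases List.mem_append.1 hl with h | h
    · split_ifs at h
      · exact hw _ l h
      · exact mem_inv (hw _) l h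
    · exact ih l h

variable {m : Fin k → ℕ}

theorem el_pu' (hw : ∀ j i, ∀ l ∈ w j i, l.2 + 1 < m j) (hN : ∀ j, m j ≤ N)
    {γ : Fin k → FreeGroup (Fin r)} (hγ : γ ∈ Hk (Fin k → FreeGroup (Fin r)) (Fin k → BN N)) :
    Pu (RS m) (ES m) (el w γ) := by
  intro c hR hE
  refine con_pi c fun j => ?_
  have h0 : ∀ j i, ∀ l ∈ w j i, l.2 + 1 < N := fun j i l hl => (hw j i l hl).trans_le (hN j)
  have h1 : cl c j (FreeMonoid.ofList (bw (w j) (γ j))) = 1 :=
    cl_pure hR hE (mem_bwl (hw j) _) (pure_of_mem h0 hγ j)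
  rw [← map_one (cl c j), cl_eq] at h1
  exact h1

theorem pl_of_dg' {A : Type} [AddCommGroup A] (hw : ∀ j i, ∀ l ∈ w j i, l.2 + 1 < m j)
    (hN : ∀ j, m j ≤ N) (n : ℕ) :
    ∀ φ : (Fin k → FreeMonoid (Bool × ℕ)) → A, Dg (ES m) n φ → Iv (RS m) φ →
      SV2.Pl (Hk (Fin k → FreeGroup (Fin r)) (Fin k → BN N)) n (fun γ => φ (el w γ)) := by
  induction n with
  | zero => intro φ hd _ γ; exact hd _
  | succ n ih =>
    intro φ hd hi g hg
    have h1 := ih _ (hd.tr hi (el_pu' hw hN hg)) (hi.tr _)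
    have e : (fun x => φ (el w (g * x)) - φ (el w x)) = fun x => Tr (el w g) φ (el w x) := by
      funext x
      have h2 := el_mul (c := cphi φ) (fun r hr => hi r hr) hw g x 1 1
      simp only [one_mul, mul_one] at h2
      show φ _ - φ _ = φ _ - φ _
      rw [h2]
    rw [e]
    exact h1

end

/-- The places have at most `N` strands and the braid words `w j i` are braid words on the strands at
the place `j`. -/
def OnStrands {k r : ℕ} (N : ℕ) (u₀ : Word) (w : Fin k → Fin r → Braid) (u : Fin k → Word) : Prop :=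
  ∀ j, wd u₀ u j ≤ N ∧ ∀ i, ∀ l ∈ w j i, l.2 + 1 < wd u₀ u j

theorem kn2 {k r N : ℕ} {u₀ : Word} {w : Fin k → Fin r → Braid} {u : Fin k → Word}
    (h : OnStrands N u₀ w u) {A : Type} [AddCommGroup A] {m : ℕ} {v : Word → A}
    (hv : IsInvariant v) (hm : DegreeLE m v) :
    SV2.Pl (Hk (Fin k → FreeGroup (Fin r)) (Fin k → BN N)) (m + 1)
      (fun γ => ext v (sub u₀ w u γ)) :=
  pl_of_dg' (fun j i => (h j).2 i) (fun j => (h j).1) (m + 1) _ (dg_phi u₀ u hm) (iv_phi u₀ u hv)

end Pool.Agent.L5helper69.SV2
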