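import Pool.Agent.L5helper69.SV.Kn2
import Pool.Agent.L5helper85.SVSml

/-!
# Substitution sequences: recurrences, periods, zero sets
-/

set_option autoImplicit false

namespace Pool.Agent.L5helper69.SV2

open Pool.Agent.H835R2 Pool.Agent.H835R2.Knot Pool.Agent.H835R2.Flat Pool.Agent.Y466.FT
  Pool.Agent.L5helper69.SV Polynomial

/-! ### The shift -/

section
variable {A : Type} [AddCommGroup A]

variable (A) in
/-- The shift. -/
def Sh : Module.End ℤ (ℕ → A) where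
  toFun f n := f (n + 1)
  map_add' _ _ := rfl
  map_smul' _ _ := rfl

theorem Sh_pow (i : ℕ) (f : ℕ → A) (n : ℕ) : ((Sh A) ^ i) f n = f (n + i) := by
  induction i generalizing n with
  | zero => rfl
  | succ i ih =>
    rw [pow_succ', Module.End.mul_apply]
    show ((Sh A ^ i) f) (n + 1) = _
    rw [ih]
    congr 1
    omega

theorem aeval_Sh (Q : ℤ[X]) (f : ℕ → A) (n : ℕ) : (aeval (Sh A) Q) f n =
    ∑ i ∈ Finset.range (Q.natDegree + 1), Q.coeff i • f (n + i) := by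
  rw [aeval_eq_sum_range, LinearMap.sum_apply, Finset.sum_apply]
  refine Finset.sum_congr rfl fun i _ => ?_
  rw [LinearMap.smul_apply, Pi.smul_apply, Sh_pow]

/-- The sequence satisfies the recurrence. -/
def Kil (Q : ℤ[X]) (f : ℕ → A) : Prop := (aeval (Sh A) Q) f = 0

theorem kil_iff (Q : ℤ[X]) (f : ℕ → A) : Kil Q f ↔
    ∀ n, ∑ i ∈ Finset.range (Q.natDegree + 1), Q.coeff i • f (n + i) = 0 := by
  unfold Kil
  rw [funext_iff]
  simp only [aeval_Sh, Pi.zero_apply]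

theorem Kil.mul_right {Q : ℤ[X]} {f : ℕ → A} (h : Kil Q f) (P : ℤ[X]) : Kil (P * Q) f := by
  unfold Kil at h ⊢
  rw [map_mul, Module.End.mul_apply, h, map_zero]

theorem Kil.mul_left {Q : ℤ[X]} {f : ℕ → A} (h : Kil Q f) (P : ℤ[X]) : Kil (Q * P) f := by
  rw [mul_comm]
  exact h.mul_right P

theorem Kil.sub {Q : ℤ[X]} {f g : ℕ → A} (h : Kil Q f) (h' : Kil Q g) :
    Kil Q (fun n => f n - g n) := by
  have : (fun n => f n - g n) = f - g := rfl
  unfold Kil at h h' ⊢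
  rw [this, map_sub, h, h', sub_zero]

end

/-! ### Periods modulo `q` -/

theorem exists_per {χ : ℤ[X]} (hχ : χ.Monic) {q : ℕ} (hq : 1 ≤ q) : ∃ P n₁ : ℕ, 1 ≤ P ∧
    ∃ a b : ℤ[X], X ^ (n₁ + P) - X ^ n₁ = a * χ + C (q : ℤ) * b := by
  have : NeZero q := ⟨by omega⟩
  set χ' := χ.map (Int.castRingHom (ZMod q)) with hχ'
  have hm : χ'.Monic := hχ.map _
  have h1 : Module.Finite (ZMod q) (AdjoinRoot χ') := hm.finite_adjoinRoot
  have h2 : Finite (AdjoinRoot χ') := Module.finite_of_finite (ZMod q)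
  obtain ⟨i, j, hij, he⟩ := Finite.exists_ne_map_eq_of_infinite
    (fun i : ℕ => (AdjoinRoot.root χ') ^ i)
  wlog hlt : i < j generalizing i j
  · exact this j i hij.symm he.symm (by omega)
  have he' : (AdjoinRoot.root χ') ^ i = (AdjoinRoot.root χ') ^ j := he
  have h3 : AdjoinRoot.mk χ' (X ^ j - X ^ i) = 0 := by
    rw [map_sub, map_pow, map_pow, AdjoinRoot.mk_X, he', sub_self]
  rw [AdjoinRoot.mk_eq_zero] at h3
  obtain ⟨c', hc'⟩ := h3
  obtain ⟨c, hc⟩ := Polynomial.map_surjective (Int.castRingHom (ZMod q)) (ZMod.ringHom_surjective _) c'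
  have h4 : C (q : ℤ) ∣ X ^ j - X ^ i - c * χ := by
    rw [Polynomial.C_dvd_iff_dvd_coeff]
    intro l
    rw [← ZMod.intCast_zmod_eq_zero_iff_dvd]
    have h5 : (X ^ j - X ^ i - c * χ).map (Int.castRingHom (ZMod q)) = 0 := by
      rw [Polynomial.map_sub, Polynomial.map_sub, Polynomial.map_pow, Polynomial.map_pow,
        Polynomial.map_X, Polynomial.map_mul, hc, hc', mul_comm, sub_self]
    have h6 := congrArg (fun p => Polynomial.coeff p l) h5
    simp only [Polynomial.coeff_map, Polynomial.coeff_zero] at h6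
    exact h6
  obtain ⟨b, hb⟩ := h4
  refine ⟨j - i, i, by omega, c, b, ?_⟩
  rw [Nat.add_sub_cancel' hlt.le, ← hb]
  ring

theorem per_of_kil {A : Type} [AddCommGroup A] {χ a b : ℤ[X]} {q P n₁ : ℕ}
    (h : X ^ (n₁ + P) - X ^ n₁ = a * χ + C (q : ℤ) * b) (hA : ∀ x : A, q • x = 0) {f : ℕ → A}
    (hf : Kil χ f) (n : ℕ) (hn : n₁ ≤ n) : f (n + P) = f n := by
  have h1 := congrArg (fun p => (aeval (Sh A) p) f (n - n₁)) h
  simp only [map_sub, map_add, map_mul, map_pow, aeval_X, LinearMap.sub_apply,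
    LinearMap.add_apply, Module.End.mul_apply, Pi.sub_apply, Pi.add_apply, Sh_pow] at h1
  have h2 : (aeval (Sh A) χ) f = 0 := hf
  rw [h2, map_zero, Pi.zero_apply, zero_add] at h1
  have h3 : (aeval (Sh A)) (C (q : ℤ)) ((aeval (Sh A) b) f) (n - n₁) = 0 := by
    rw [aeval_C, Module.algebraMap_end_apply, Pi.smul_apply, natCast_zsmul]
    exact hA _
  rw [h3] at h1
  have e1 : n - n₁ + (n₁ + P) = n + P := by omega
  have e2 : n - n₁ + n₁ = n := by omega
  rw [e1, e2] at h1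
  exact sub_eq_zero.1 h1

/-! ### The diagrams -/

/-- The `n`-th diagram of the sequence: the braids of `Φ^n(γ)` are inserted at the places. -/
def dia {k r : ℕ} (u₀ : Word) (w : Fin k → Fin r → Braid) (u : Fin k → Word)
    (Φ : (Fin k → FreeGroup (Fin r)) →* (Fin k → FreeGroup (Fin r)))
    (γ : Fin k → FreeGroup (Fin r)) (n : ℕ) : Word := sub u₀ w u (Φ^[n] γ)

instance {k r : ℕ} : Group.FG (Fin k → FreeGroup (Fin r)) := by
  infer_instance

theorem exists_chi {k r : ℕ} (N : ℕ) (Φ : (Fin k → FreeGroup (Fin r)) →* (Fin k → FreeGroup (Fin r)))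
    (m : ℕ) : ∃ χ : ℤ[X], χ.Monic ∧ ∀ (u₀ : Word) (w : Fin k → Fin r → Braid) (u : Fin k → Word),
      OnStrands N u₀ w u → ∀ (A : Type) [AddCommGroup A] (v : Word → A), IsInvariant v →
        DegreeLE m v → ∀ γ, Kil χ (fun n => ext v (dia u₀ w u Φ γ n)) := by
  obtain ⟨χ, h1, h2⟩ := rec (Γ := Fin k → FreeGroup (Fin r))
    (H := Hk (Fin k → FreeGroup (Fin r)) (Fin k → BN N)) (Φ := Φ) (Hk_inv _ _ Φ) (m + 1)
  refine ⟨χ, h1, fun u₀ w u h A _ v hv hm γ => ?_⟩
  rw [kil_iff]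
  intro n
  exact h2 A (fun γ => ext v (sub u₀ w u γ)) (kn2 h hv hm) γ n

end Pool.Agent.L5helper69.SV2
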