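import Pool.Agent.L5helper69.SV.Kn2

/-!
# Diagrams with braids given by elements of a product of free groups
-/

set_option autoImplicit false

namespace Pool.Agent.L5helper69.SV

open Pool.Agent.H835R2.Knot Pool.Agent.Y466.FT

/-- The product of `k` free groups of rank `r`. -/
abbrev Grp (k r : ℕ) : Type := Fin k → FreeGroup (Fin r)

/-- A diagram `u₀ u₁ ⋯ u_k` with `k` places with at most `N` strands, and for every place `j` braid
words `w j i`, `i < r`, on the strands at this place. -/
structure Shape (k r N : ℕ) where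
  /-- the part above the first place -/
  u₀ : Word
  /-- the braid words -/
  w : Fin k → Fin r → Braid
  /-- the part below the place `j` -/
  u : Fin k → Word
  /-- the braid words are on the strands, of which there are at most `N` -/
  on : Pool.Agent.L5helper69.SV2.OnStrands N u₀ w u

section
variable {k r N k' r' N' s s' : ℕ}

/-- The diagram in which the braid word of `γ j` in the `w j i` is inserted at the place `j`. -/
def Shape.D (S : Shape k r N) (γ : Grp k r) : Word := sub S.u₀ S.w S.u γ

/-- The diagram of the image of `γ` under the automorphism `Ψ n`, for an action `Ψ` of the group `ℤ ^ s`. -/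
def Shape.A (S : Shape k r N) (Ψ : Multiplicative (Fin s → ℤ) →* MulAut (Grp k r)) (γ : Grp k r)
    (n : Fin s → ℤ) : Word := S.D (Ψ (Multiplicative.ofAdd n) γ)

/-- Both words are knot diagrams. -/
def Knots (D E : Word) : Prop := IsKnot D ∧ IsKnot E

/-- Both words are diagrams of knots which are not separated by any rational valued Vassiliev invariant. -/
def Equal (D E : Word) : Prop := Knots D E ∧ ∀ m, ¬ Separated m D E

/-- The values of the Vassiliev invariants of order at most `m` on the diagrams of the `Φ^n γ` satisfy one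
linear recurrence. -/
def Recurrence (N : ℕ) (Φ : Grp k r →* Grp k r) (m : ℕ) : Prop :=
  ∃ χ : Polynomial ℤ, χ.Monic ∧
    ∀ (S : Shape k r N) (A : Type) [AddCommGroup A] (v : Word → A), IsInvariant v → DegreeLE m v →
      ∀ (γ : Grp k r) (n : ℕ),
        ∑ i ∈ Finset.range (χ.natDegree + 1), χ.coeff i • ext v (S.D (Φ^[n + i] γ)) = 0

/-- The values in groups of exponent `q` are periodic for `n ≥ n₁`, with one period. -/
def Periods (N : ℕ) (Φ : Grp k r →* Grp k r) (m q : ℕ) : Prop :=
  ∃ P n₁ : ℕ, 1 ≤ P ∧
    ∀ (S : Shape k r N) (A : Type) [AddCommGroup A] (v : Word → A), IsInvariant v → DegreeLE m v →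
      (∀ a : A, q • a = 0) → ∀ (γ : Grp k r) (n : ℕ), n₁ ≤ n →
        ext v (S.D (Φ^[n + P] γ)) = ext v (S.D (Φ^[n] γ))

/-- For no `n ≥ n₀` in the class of `c` modulo `L` both words are knot diagrams; or for all such `n` both
are, and the knots are separated in order at most `m` for no such `n` or for all but finitely many. -/
def Alternative (m L n₀ c : ℕ) (D E : ℕ → Word) : Prop :=
  (∀ n, n₀ ≤ n → n % L = c % L → ¬ Knots (D n) (E n)) ∨
  ((∀ n, n₀ ≤ n → n % L = c % L → Knots (D n) (E n)) ∧
    ((∀ n, n₀ ≤ n → n % L = c % L → ¬ Separated m (D n) (E n)) ∨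
      {n | n % L = c % L ∧ ¬ Separated m (D n) (E n)}.Finite))

/-- The alternative holds, with one `L` and one `n₀`, for all diagrams. -/
def Dichotomy (N N' : ℕ) (Φ : Grp k r →* Grp k r) (Φ' : Grp k' r' →* Grp k' r') (m : ℕ) : Prop :=
  ∃ L n₀ : ℕ, 1 ≤ L ∧ ∀ (S : Shape k r N) (S' : Shape k' r' N') (γ : Grp k r) (γ' : Grp k' r')
    (c : ℕ), Alternative m L n₀ c (fun n => S.D (Φ^[n] γ)) (fun n => S'.D (Φ'^[n] γ'))

/-- Vassiliev invariants of one order `d` separate all pairs of knots in the two families which are
separated by rational valued Vassiliev invariants. -/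
def OneOrder (D : (Fin s → ℤ) → Word) (E : (Fin s' → ℤ) → Word) : Prop :=
  ∃ d : ℕ, ∀ (n : Fin s → ℤ) (n' : Fin s' → ℤ) (m : ℕ), Knots (D n) (E n') →
    Separated m (D n) (E n') → Separated d (D n) (E n')

/-- Along all pairs of arithmetic progressions the set of the `n` for which the knots are not separated
by rational valued Vassiliev invariants is periodic for `n ≥ n₁`. -/
def Progressions (D : (Fin s → ℤ) → Word) (E : (Fin s' → ℤ) → Word) : Prop :=
  ∀ (a b : Fin s → ℤ) (a' b' : Fin s' → ℤ), ∃ L n₁ : ℕ, 1 ≤ L ∧ ∀ n : ℕ, n₁ ≤ n →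
    (Equal (D (a + (n + L) • b)) (E (a' + (n + L) • b')) ↔ Equal (D (a + n • b)) (E (a' + n • b')))

end

end Pool.Agent.L5helper69.SV
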