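import Pool.Agent.L5helper69.SV.Final
import Pool.Agent.L5helper69.SV.Stm
import Pool.Agent.L5helper69.SV.Defs4

/-!
# Several commuting automorphisms
-/

set_option autoImplicit false

namespace Pool.Agent.L5helper69.SV3

open Pool.Agent.H835R2 Pool.Agent.H835R2.Knot Pool.Agent.H835R2.Flat Pool.Agent.Y466.FT
  Pool.Agent.L5helper69.SV Pool.Agent.L5helper69.SV2 Polynomial

theorem rngM_fg {s : ℕ} (P : Fin s → ℂ[X]) : (RngM P).FG := by
  refine Subalgebra.fg_def.2 ⟨_, Set.Finite.union ?_ ?_, rfl⟩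
  · have h : {a : (Fin s → ℤ) → ℂ | ∃ j, a = fun n => ((n j : ℤ) : ℂ)} =
        Set.range (fun j : Fin s => fun n : Fin s → ℤ => ((n j : ℤ) : ℂ)) := by
      ext a
      constructor
      · rintro ⟨j, rfl⟩
        exact ⟨j, rfl⟩
      · rintro ⟨j, rfl⟩
        exact ⟨j, rfl⟩
    rw [h]
    exact Set.finite_range _
  · have h : {a : (Fin s → ℤ) → ℂ | ∃ j, ∃ z ∈ (P j).roots, a = fun n => z ^ (n j)} ⊆
        ⋃ j : Fin s, (fun z : ℂ => fun n : Fin s → ℤ => z ^ (n j)) '' ((P j).roots.toFinset : Set ℂ) := by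
      rintro a ⟨j, z, hz, rfl⟩
      refine Set.mem_iUnion.2 ⟨j, z, ?_, rfl⟩
      simpa using hz
    refine (Set.finite_iUnion fun j => ?_).subset h
    exact ((P j).roots.toFinset.finite_toSet).image _

/-- The pull-back of functions. -/
def pullG {X Y : Type} (f : X → Y) : (Y → ℂ) →ₐ[ℂ] (X → ℂ) where
  toFun a x := a (f x)
  map_one' := rfl
  map_mul' _ _ := rfl
  map_zero' := rfl
  map_add' _ _ := rfl
  commutes' _ := rfl

section
variable {k r N s : ℕ}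

theorem ofAdd_single {M : Type} [Monoid M] (Ψ : Multiplicative (Fin s → ℤ) →* M) (b : Fin s → ℤ)
    (i : ℕ) : Ψ (Multiplicative.ofAdd (i • b)) = (Ψ (Multiplicative.ofAdd b)) ^ i := by
  rw [ofAdd_nsmul, map_pow]

theorem aut_pow (Φ : MulAut (Grp k r)) (i : ℕ) (γ : Grp k r) :
    (Φ ^ i) γ = (MulEquiv.toMonoidHom Φ)^[i] γ := by
  induction i generalizing γ with
  | zero => rfl
  | succ i ih =>
    rw [pow_succ, MulAut.mul_apply, ih, Function.iterate_succ_apply]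
    rfl

theorem shift_eq (Ψ : Multiplicative (Fin s → ℤ) →* MulAut (Grp k r)) (γ : Grp k r)
    (n b : Fin s → ℤ) (i : ℕ) : Ψ (Multiplicative.ofAdd (n + i • b)) γ =
      (MulEquiv.toMonoidHom (Ψ (Multiplicative.ofAdd b)))^[i] (Ψ (Multiplicative.ofAdd n) γ) := by
  rw [add_comm, ofAdd_add, map_mul, MulAut.mul_apply, ofAdd_single, aut_pow]

theorem exists_P (hexpZ : St_ExpZ) (hfund : St_Fund) (hmulti : St_Multi)
    (Ψ : Multiplicative (Fin s → ℤ) →* MulAut (Grp k r)) (N : ℕ) :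
    ∃ P : Fin s → ℂ[X], ∀ (m : ℕ) (S : Shape k r N) (v : Word → ℚ), IsInvariant v → DegreeLE m v →
      ∀ γ, (fun n => ((Pool.Agent.Y466.FT.ext v (S.A Ψ γ n) : ℚ) : ℂ)) ∈ RngM P := by
  choose P h1 h2 h3 using fun j : Fin s => exists_Q Pool.Agent.L5helper10.SV.diag
    Pool.Agent.L5helper65.SV.desc Pool.Agent.L5helper90.SV.cos N
    (Ψ (Multiplicative.ofAdd (Pi.single j 1)))
  refine ⟨P, fun m S v hv hm γ => ?_⟩
  choose Q q1 q2 q3 using fun j => h3 j m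
  refine hmulti hexpZ hfund s P Q h1 h2 q1 q2 _ fun j n => ?_
  have h4 := q3 j S.u₀ S.w S.u S.on v hv hm (Ψ (Multiplicative.ofAdd n) γ) 0
  rw [← h4]
  refine Finset.sum_congr rfl fun i _ => ?_
  have e : n + Pi.single j (i : ℤ) = n + i • Pi.single j 1 := by
    congr 1
    funext l
    by_cases hl : l = j
    · subst hl; simp
    · simp [hl]
  have e2 : S.A Ψ γ (n + Pi.single j (i : ℤ)) = dia S.u₀ S.w S.u
      (MulEquiv.toMonoidHom (Ψ (Multiplicative.ofAdd (Pi.single j 1)))) (Ψ (Multiplicative.ofAdd n) γ)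
      (0 + i) := by
    unfold Shape.A Shape.D dia
    rw [e, shift_eq, zero_add]
  rw [e2]

theorem one_orderM (hexpZ : St_ExpZ) (hfund : St_Fund) (hmulti : St_Multi)
    (S : Shape k r N) (Ψ : Multiplicative (Fin s → ℤ) →* MulAut (Grp k r)) (γ : Grp k r)
    {k' r' N' s' : ℕ} (S' : Shape k' r' N')
    (Ψ' : Multiplicative (Fin s' → ℤ) →* MulAut (Grp k' r')) (γ' : Grp k' r') :
    OneOrder (S.A Ψ γ) (S'.A Ψ' γ') := by
  obtain ⟨P, hP⟩ := exists_P hexpZ hfund hmulti Ψ N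
  obtain ⟨P', hP'⟩ := exists_P hexpZ hfund hmulti Ψ' N'
  set a : (Word → ℚ) → (Fin s → ℤ) × (Fin s' → ℤ) → ℂ := fun v n =>
    ((Pool.Agent.Y466.FT.ext v (S.A Ψ γ n.1) : ℚ) : ℂ) -
      ((Pool.Agent.Y466.FT.ext v (S'.A Ψ' γ' n.2) : ℚ) : ℂ) with ha
  obtain ⟨d, hd⟩ := noeth_gen ((RngM P).map (pullG Prod.fst) ⊔ (RngM P').map (pullG Prod.snd))
    (((rngM_fg P).map _).sup ((rngM_fg P').map _))
    (fun m => {b | ∃ v : Word → ℚ, IsInvariant v ∧ DegreeLE m v ∧ b = a v}) (by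
      rintro m _ ⟨v, hv, hm, rfl⟩
      have k1 := hP m S v hv hm γ
      have k2 := hP' m S' v hv hm γ'
      have l1 : pullG (Prod.fst : (Fin s → ℤ) × (Fin s' → ℤ) → (Fin s → ℤ)) _ ∈
          (RngM P).map (pullG Prod.fst) ⊔ (RngM P').map (pullG Prod.snd) :=
        (le_sup_left : (RngM P).map (pullG Prod.fst) ≤ _) (Subalgebra.mem_map.2 ⟨_, k1, rfl⟩)
      have l2 : pullG (Prod.snd : (Fin s → ℤ) × (Fin s' → ℤ) → (Fin s' → ℤ)) _ ∈
          (RngM P).map (pullG Prod.fst) ⊔ (RngM P').map (pullG Prod.snd) :=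
        (le_sup_right : (RngM P').map (pullG Prod.snd) ≤ _) (Subalgebra.mem_map.2 ⟨_, k2, rfl⟩)
      exact sub_mem l1 l2) (by
      rintro m n hmn _ ⟨v, hv, hm, rfl⟩
      exact ⟨v, hv, DegreeLE.mono hmn hm, rfl⟩)
  refine ⟨d, fun n n' m hk hsep => ?_⟩
  by_contra hcon
  obtain ⟨v, hv, hm, hne⟩ := (sep_iff hk.1 hk.2).1 hsep
  have h4 := hd (n, n') (by
    rintro _ ⟨v', hv', hm', rfl⟩
    rw [ha]
    by_contra hne'
    refine hcon ((sep_iff hk.1 hk.2).2 ⟨v', hv', hm', fun h0 => hne' ?_⟩)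
    show ((_ : ℚ) : ℂ) - ((_ : ℚ) : ℂ) = 0
    rw [← Rat.cast_sub, h0, Rat.cast_zero]) m (a v) ⟨v, hv, hm, rfl⟩
  apply hne
  have h5 : (((Pool.Agent.Y466.FT.ext v (S.A Ψ γ n) -
      Pool.Agent.Y466.FT.ext v (S'.A Ψ' γ' n')) : ℚ) : ℂ) = 0 := by
    rw [Rat.cast_sub]
    exact h4
  exact_mod_cast h5

theorem progressions (S : Shape k r N) (Ψ : Multiplicative (Fin s → ℤ) →* MulAut (Grp k r))
    (γ : Grp k r) {k' r' N' s' : ℕ} (S' : Shape k' r' N')
    (Ψ' : Multiplicative (Fin s' → ℤ) →* MulAut (Grp k' r')) (γ' : Grp k' r')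
    (hone : OneOrder (S.A Ψ γ) (S'.A Ψ' γ')) : Progressions (S.A Ψ γ) (S'.A Ψ' γ') := by
  obtain ⟨d, hd⟩ := hone
  intro a b a' b'
  have sh : ∀ n : ℕ, S.A Ψ γ (a + n • b) = dia S.u₀ S.w S.u
      (MulEquiv.toMonoidHom (Ψ (Multiplicative.ofAdd b))) (Ψ (Multiplicative.ofAdd a) γ) n := by
    intro n
    unfold Shape.A Shape.D dia
    rw [shift_eq]
  have sh' : ∀ n : ℕ, S'.A Ψ' γ' (a' + n • b') = dia S'.u₀ S'.w S'.u
      (MulEquiv.toMonoidHom (Ψ' (Multiplicative.ofAdd b'))) (Ψ' (Multiplicative.ofAdd a') γ') n := by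
    intro n
    unfold Shape.A Shape.D dia
    rw [shift_eq]
  obtain ⟨L, n₀, hL, hc⟩ := part_C N (MulEquiv.toMonoidHom (Ψ (Multiplicative.ofAdd b))) N'
    (MulEquiv.toMonoidHom (Ψ' (Multiplicative.ofAdd b'))) d
  refine ⟨L, ?_⟩
  have key := periodic_of_classes (Z := fun n => Equal (S.A Ψ γ (a + n • b))
      (S'.A Ψ' γ' (a' + n • b'))) hL (by
    intro c
    rcases hc S.u₀ S.w S.u S'.u₀ S'.w S'.u S.on S'.on (Ψ (Multiplicative.ofAdd a) γ)
      (Ψ' (Multiplicative.ofAdd a') γ') c with h | h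
    · refine ⟨n₀, Or.inr fun n hn hnc hz => ?_⟩
      refine h n hn hnc ?_
      rw [← sh, ← sh']
      exact hz.1
    · obtain ⟨hk, h | h⟩ := h
      · refine ⟨n₀, Or.inl fun n hn hnc => ?_⟩
        have h1 := hk n hn hnc
        have h2 := h n hn hnc
        rw [← sh, ← sh'] at h1 h2
        exact ⟨h1, fun m hm => h2 (hd _ _ m h1 hm)⟩
      · obtain ⟨B, hB⟩ := h.bddAbove
        refine ⟨B + 1, Or.inr fun n hn hnc hz => ?_⟩
        have h3 : n ≤ B := hB (by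
          refine ⟨hnc, ?_⟩
          rw [← sh, ← sh']
          exact hz.2 d)
        omega)
  obtain ⟨n₁, h1⟩ := key
  exact ⟨n₁, hL, h1⟩

end

end Pool.Agent.L5helper69.SV3
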