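import Pool.Agent.L5helper69.SV.Defs

/-!
# Functions of finite degree along the orbits of an endomorphism
-/

set_option autoImplicit false

namespace Pool.Agent.L5helper69.SV

open Finsupp

section
variable {Γ : Type} [Group Γ]

/-- Left translation. -/
noncomputable def La (g : Γ) : (Γ →₀ ℤ) →ₗ[ℤ] (Γ →₀ ℤ) := lmapDomain ℤ ℤ (g * ·)

/-- The operator `g - 1`. -/
noncomputable def Da (g : Γ) : (Γ →₀ ℤ) →ₗ[ℤ] (Γ →₀ ℤ) := La g - LinearMap.id

theorem La_mul (g h : Γ) (y : Γ →₀ ℤ) : La (g * h) y = La g (La h y) := by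
  have : La (g * h) = La g ∘ₗ La h := by
    ext x
    simp [La, mul_assoc]
  rw [this]; rfl

theorem La_one (y : Γ →₀ ℤ) : La (1 : Γ) y = y := by
  have : La (1 : Γ) = LinearMap.id := by
    ext x
    simp [La]
  rw [this]; rfl

theorem Da_apply (g : Γ) (y : Γ →₀ ℤ) : Da g y = La g y - y := rfl

theorem Da_mul (g h : Γ) (y : Γ →₀ ℤ) : Da (g * h) y = Da g (Da h y) + Da g y + Da h y := by
  simp only [Da_apply, La_mul, map_sub]
  abel

theorem Da_one (y : Γ →₀ ℤ) : Da (1 : Γ) y = 0 := by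
  rw [Da_apply, La_one, sub_self]

theorem Da_inv (g : Γ) (y : Γ →₀ ℤ) : Da g⁻¹ y = - Da g y - Da g⁻¹ (Da g y) := by
  have := Da_mul g⁻¹ g y
  rw [inv_mul_cancel, Da_one] at this
  have h2 : Da g⁻¹ y = -(Da g⁻¹ (Da g y) + Da g y) := by
    rw [eq_neg_iff_add_eq_zero, this]
    abel
  rw [h2]; abel

/-- The powers of the augmentation ideal. -/
noncomputable def Na (Γ : Type) [Group Γ] : ℕ → Submodule ℤ (Γ →₀ ℤ)
  | 0 => ⊤
  | m + 1 => ⨆ g : Γ, (Na Γ m).map (Da g)

theorem Da_mem {m : ℕ} (g : Γ) {y : Γ →₀ ℤ} (hy : y ∈ Na Γ m) : Da g y ∈ Na Γ (m + 1) :=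
  Submodule.mem_iSup_of_mem g (Submodule.mem_map_of_mem hy)

theorem Na_anti (m : ℕ) : Na Γ (m + 1) ≤ Na Γ m := by
  induction m with
  | zero => exact le_top
  | succ m ih =>
    refine iSup_le fun g => ?_
    rintro _ ⟨y, hy, rfl⟩
    exact Da_mem g (ih hy)

theorem Na_ker {A : Type} [AddCommGroup A] (m : ℕ) : ∀ f : Γ → A, Pl m f →
    Na Γ m ≤ LinearMap.ker (linearCombination ℤ f) := by
  induction m with
  | zero =>
    intro f hf y _
    have : f = 0 := funext hf
    rw [this]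
    simp [LinearMap.mem_ker, linearCombination_apply]
  | succ m ih =>
    intro f hf
    refine iSup_le fun g => ?_
    rintro _ ⟨y, hy, rfl⟩
    have h1 := ih _ (hf g) hy
    have e : linearCombination ℤ f ∘ₗ Da g = linearCombination ℤ (fun x => f (g * x) - f x) := by
      refine Finsupp.lhom_ext' fun x => LinearMap.ext_ring ?_
      show linearCombination ℤ f (lmapDomain ℤ ℤ (g * ·) (single x 1) - single x 1) =
        linearCombination ℤ (fun x => f (g * x) - f x) (single x 1)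
      rw [map_sub, lmapDomain_apply, mapDomain_single]
      simp only [linearCombination_single, one_smul]
    rw [LinearMap.mem_ker] at h1 ⊢
    rw [← e] at h1
    exact h1

variable (Γ) in
/-- Generators. -/
noncomputable def Ga (S : Set Γ) : ℕ → Submodule ℤ (Γ →₀ ℤ)
  | 0 => Submodule.span ℤ {single 1 1}
  | m + 1 => ⨆ s : S, (Ga S m).map (Da (s : Γ))

theorem Ga_fg {S : Set Γ} (hS : S.Finite) (m : ℕ) : (Ga Γ S m).FG := by
  haveI := hS.to_subtype
  induction m with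
  | zero => exact Submodule.fg_span (Set.finite_singleton _)
  | succ m ih =>
    exact Submodule.fg_iSup _ fun s => ih.map _

theorem Na_le {S : Set Γ} (hS : Subgroup.closure S = ⊤) (m : ℕ) :
    Na Γ m ≤ Ga Γ S m ⊔ Na Γ (m + 1) := by
  induction m with
  | zero =>
    intro y _
    induction y using Finsupp.induction_linear with
    | zero => exact zero_mem _
    | add a b ha hb => exact add_mem (ha trivial) (hb trivial)
    | single x z =>
      have e : (single x z : Γ →₀ ℤ) = z • single 1 1 + Da x (z • single 1 1) := by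
        simp [Da, La]
      rw [e]
      refine add_mem (Submodule.mem_sup_left ?_) (Submodule.mem_sup_right ?_)
      · exact Submodule.smul_mem _ _ (Submodule.mem_span_singleton_self _)
      · exact Da_mem x (m := 0) trivial
  | succ m ih =>
    refine iSup_le fun g => ?_
    have hg : g ∈ Subgroup.closure S := by rw [hS]; trivial
    rintro _ ⟨y, hy, rfl⟩
    induction hg using Subgroup.closure_induction with
    | mem s hs =>
      obtain ⟨a, ha, b, hb, hab⟩ := Submodule.mem_sup.1 (ih hy)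
      rw [← hab, map_add]
      refine add_mem (Submodule.mem_sup_left ?_) (Submodule.mem_sup_right ?_)
      · exact Submodule.mem_iSup_of_mem (⟨s, hs⟩ : S) (Submodule.mem_map_of_mem ha)
      · exact Da_mem s hb
    | one => rw [Da_one]; exact zero_mem _
    | mul g h _ _ hg hh =>
      rw [Da_mul]
      refine add_mem (add_mem (Submodule.mem_sup_right ?_) hg) hh
      exact Da_mem g (Da_mem h hy)
    | inv g _ hg =>
      rw [Da_inv]
      refine sub_mem (neg_mem hg) (Submodule.mem_sup_right ?_)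
      exact Da_mem _ (Da_mem g hy)

theorem exists_fg [Group.FG Γ] (m : ℕ) : ∃ H : Submodule ℤ (Γ →₀ ℤ), H.FG ∧ H ⊔ Na Γ m = ⊤ := by
  obtain ⟨S, hS⟩ := Group.FG.out (G := Γ)
  induction m with
  | zero => exact ⟨⊥, Submodule.fg_bot, by rw [bot_sup_eq]; rfl⟩
  | succ m ih =>
    obtain ⟨H, h1, h2⟩ := ih
    refine ⟨H ⊔ Ga Γ (S : Set Γ) m, h1.sup (Ga_fg S.finite_toSet m), ?_⟩
    rw [eq_top_iff, ← h2, sup_assoc]
    exact sup_le_sup_left (Na_le hS m) _

theorem finite_quot [Group.FG Γ] (m : ℕ) : Module.Finite ℤ ((Γ →₀ ℤ) ⧸ Na Γ m) := by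
  obtain ⟨H, h1, h2⟩ := exists_fg (Γ := Γ) m
  refine ⟨?_⟩
  have : (⊤ : Submodule ℤ ((Γ →₀ ℤ) ⧸ Na Γ m)) = H.map (Na Γ m).mkQ := by
    rw [eq_comm, eq_top_iff]
    rintro x -
    obtain ⟨y, rfl⟩ := (Na Γ m).mkQ_surjective x
    have hy : y ∈ H ⊔ Na Γ m := by rw [h2]; trivial
    obtain ⟨a, ha, b, hb, rfl⟩ := Submodule.mem_sup.1 hy
    refine ⟨a, ha, ?_⟩
    rw [map_add, (Submodule.Quotient.mk_eq_zero _).2 hb |> fun h => (show (Na Γ m).mkQ b = 0 from h),
      add_zero]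
  rw [this]
  exact h1.map _

/-- The endomorphism of the group ring. -/
noncomputable def Ta (Φ : Γ →* Γ) : (Γ →₀ ℤ) →ₗ[ℤ] (Γ →₀ ℤ) := lmapDomain ℤ ℤ Φ

theorem Ta_Da (Φ : Γ →* Γ) (g : Γ) (y : Γ →₀ ℤ) : Ta Φ (Da g y) = Da (Φ g) (Ta Φ y) := by
  have : Ta Φ ∘ₗ Da g = Da (Φ g) ∘ₗ Ta Φ := by
    refine Finsupp.lhom_ext' fun x => LinearMap.ext_ring ?_
    show lmapDomain ℤ ℤ Φ (lmapDomain ℤ ℤ (g * ·) (single x 1) - single x 1) =
      lmapDomain ℤ ℤ (Φ g * ·) (lmapDomain ℤ ℤ Φ (single x 1)) - lmapDomain ℤ ℤ Φ (single x 1)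
    rw [map_sub]
    simp only [lmapDomain_apply, mapDomain_single, map_mul]
  exact LinearMap.congr_fun this y

theorem Ta_Na (Φ : Γ →* Γ) (m : ℕ) : Na Γ m ≤ (Na Γ m).comap (Ta Φ) := by
  induction m with
  | zero => exact fun _ _ => trivial
  | succ m ih =>
    refine iSup_le fun g => ?_
    rintro _ ⟨y, hy, rfl⟩
    rw [Submodule.mem_comap, Ta_Da]
    exact Da_mem _ (ih hy)

end

theorem rec : St_Rec := by
  intro Γ _ _ Φ m
  haveI := finite_quot (Γ := Γ) m
  set T : Module.End ℤ ((Γ →₀ ℤ) ⧸ Na Γ m) := (Na Γ m).mapQ (Na Γ m) (Ta Φ) (Ta_Na Φ m) with hT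
  obtain ⟨χ, h1, h2⟩ := LinearMap.exists_monic_and_aeval_eq_zero ℤ T
  refine ⟨χ, h1, fun A _ f hf x n => ?_⟩
  set F : ((Γ →₀ ℤ) ⧸ Na Γ m) →ₗ[ℤ] A := (Na Γ m).liftQ (linearCombination ℤ f) (Na_ker m f hf)
    with hF
  have h3 : ∀ j, (T ^ j) ((Na Γ m).mkQ (single x 1)) = (Na Γ m).mkQ (single (Φ^[j] x) 1) := by
    intro j
    induction j with
    | zero => rfl
    | succ j ih =>
      rw [pow_succ', Module.End.mul_apply, ih, hT, Function.iterate_succ_apply']
      show (Na Γ m).mkQ (Ta Φ (single (Φ^[j] x) 1)) = _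
      simp [Ta]
  have h4 : ∀ j, F ((T ^ j) ((Na Γ m).mkQ (single x 1))) = f (Φ^[j] x) := by
    intro j
    rw [h3]
    show linearCombination ℤ f (single (Φ^[j] x) 1) = _
    simp
  have h5 : F (((Polynomial.aeval T) χ) ((T ^ n) ((Na Γ m).mkQ (single x 1)))) = 0 := by
    rw [h2, LinearMap.zero_apply, map_zero]
  rw [Polynomial.aeval_eq_sum_range, LinearMap.sum_apply, map_sum] at h5
  rw [← h5]
  refine Finset.sum_congr rfl fun i _ => ?_
  rw [LinearMap.smul_apply, map_smul, ← Module.End.mul_apply, ← pow_add, add_comm i n, h4]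

end Pool.Agent.L5helper69.SV
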